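import Pool.Agent.SMg.Defs

/-! MP_72ffec_pr, exchangeable pairs: the log-concave function and Prékopa-Leindler. -/

open MeasureTheory ProbabilityTheory Real
open scoped BigOperators ENNReal

namespace SMg

open SMx SMt

variable {n : ℕ} {ι : Type} [Fintype ι]

-- BEGIN dtp
private theorem dtp_nn (β : ℝ) (a b : Fin n) (q x : Fin n → ℝ) (s : ℝ) :
    0 ≤ ∑ k, (if k = a ∨ k = b then 0 else exp (β * (x k + s * q k))) := by
  refine Finset.sum_nonneg fun k _ => ?_
  split_ifs
  · exact le_rfl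
  · exact (exp_pos _).le

theorem Dt_pos (β t : ℝ) (a b : Fin n) (q x : Fin n → ℝ) (s : ℝ) : 0 < Dt β t a b q x s := by
  have h1 := dtp_nn β a b q x s
  have h2 : 0 < 2 * cosh (β * t / 2) * exp (β * x a) :=
    mul_pos (mul_pos two_pos (cosh_pos _)) (exp_pos _)
  unfold Dt
  linarith

/-- `exp (β x_a) ≤ D / 2` as `cosh ≥ 1` -/
theorem exp_le_Dt (β t : ℝ) (a b : Fin n) (q x : Fin n → ℝ) (s : ℝ) :
    exp (β * x a) ≤ Dt β t a b q x s / 2 := by
  have h1 := dtp_nn β a b q x s
  have h2 : exp (β * x a) ≤ cosh (β * t / 2) * exp (β * x a) :=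
    le_mul_of_one_le_left (exp_pos _).le (one_le_cosh _)
  unfold Dt
  linarith

/-- `|S| ≤ (∑ |q|) D` -/
theorem St_le (β t : ℝ) (a b : Fin n) (q x : Fin n → ℝ) (s : ℝ) :
    |St β a b q x s| ≤ (∑ k, |q k|) * Dt β t a b q x s := by
  have hD := Dt_pos β t a b q x s
  unfold St
  refine (Finset.abs_sum_le_sum_abs _ _).trans ?_
  rw [Finset.sum_mul]
  refine Finset.sum_le_sum fun k _ => ?_
  split_ifs with hk
  · rw [abs_zero]
    exact mul_nonneg (abs_nonneg _) hD.le
  · rw [abs_mul, abs_of_pos (exp_pos _)]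
    refine mul_le_mul_of_nonneg_left ?_ (abs_nonneg _)
    have h1 : exp (β * (x k + s * q k)) ≤
        ∑ j, (if j = a ∨ j = b then 0 else exp (β * (x j + s * q j))) := by
      have h2 := Finset.single_le_sum
        (f := fun j => if j = a ∨ j = b then (0 : ℝ) else exp (β * (x j + s * q j)))
        (s := Finset.univ) (fun j _ => by
          show (0 : ℝ) ≤ if j = a ∨ j = b then (0 : ℝ) else exp (β * (x j + s * q j))
          split_ifs
          · exact le_rfl
          · exact (exp_pos _).le) (Finset.mem_univ k)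
      simp only [if_neg hk] at h2
      exact h2
    have h3 : 0 ≤ 2 * cosh (β * t / 2) * exp (β * x a) :=
      (mul_pos (mul_pos two_pos (cosh_pos _)) (exp_pos _)).le
    unfold Dt
    linarith
-- END dtp

-- BEGIN hol
private theorem hol_sum {κ : Type} [Fintype κ] (c u v : κ → ℝ) (hc : ∀ k, 0 ≤ c k) {A B : ℝ}
    (hA : ∑ k, c k * exp (u k) = A) (hB : ∑ k, c k * exp (v k) = B) (hA0 : 0 < A) (hB0 : 0 < B)
    {θ : ℝ} (h0 : 0 < θ) (h1 : θ < 1) :
    ∑ k, c k * exp (θ * u k + (1 - θ) * v k) ≤ A ^ θ * B ^ (1 - θ) := by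
  have h1' : 0 < 1 - θ := by linarith
  have e1 : A ^ θ * B ^ (1 - θ) = exp (θ * log A + (1 - θ) * log B) := by
    rw [rpow_def_of_pos hA0, rpow_def_of_pos hB0, ← exp_add]
    congr 1
    ring
  have h2 : ∀ k, c k * exp (θ * u k + (1 - θ) * v k) ≤ exp (θ * log A + (1 - θ) * log B) *
      (θ * (c k * exp (u k) / A) + (1 - θ) * (c k * exp (v k) / B)) := by
    intro k
    have h3 := convexOn_exp.2 (Set.mem_univ (u k - log A)) (Set.mem_univ (v k - log B)) h0.le
      h1'.le (by ring)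
    simp only [smul_eq_mul] at h3
    rw [exp_sub (u k), exp_sub (v k), exp_log hA0, exp_log hB0] at h3
    have h4 : exp (θ * u k + (1 - θ) * v k) = exp (θ * log A + (1 - θ) * log B) *
        exp (θ * (u k - log A) + (1 - θ) * (v k - log B)) := by
      rw [← exp_add]
      congr 1
      ring
    rw [h4]
    have h5 := mul_le_mul_of_nonneg_left h3
      (mul_nonneg (hc k) (exp_pos (θ * log A + (1 - θ) * log B)).le)
    calc c k * (exp (θ * log A + (1 - θ) * log B) *
          exp (θ * (u k - log A) + (1 - θ) * (v k - log B)))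
        = c k * exp (θ * log A + (1 - θ) * log B) *
          exp (θ * (u k - log A) + (1 - θ) * (v k - log B)) := by ring
      _ ≤ c k * exp (θ * log A + (1 - θ) * log B) *
          (θ * (exp (u k) / A) + (1 - θ) * (exp (v k) / B)) := h5
      _ = _ := by ring
  calc ∑ k, c k * exp (θ * u k + (1 - θ) * v k)
      ≤ ∑ k, exp (θ * log A + (1 - θ) * log B) *
        (θ * (c k * exp (u k) / A) + (1 - θ) * (c k * exp (v k) / B)) :=
        Finset.sum_le_sum fun k _ => h2 k
    _ = exp (θ * log A + (1 - θ) * log B) * (θ * (A / A) + (1 - θ) * (B / B)) := by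
        rw [← Finset.mul_sum, Finset.sum_add_distrib, ← Finset.mul_sum, ← Finset.mul_sum,
          ← Finset.sum_div, ← Finset.sum_div, hA, hB]
    _ = A ^ θ * B ^ (1 - θ) := by
        rw [div_self hA0.ne', div_self hB0.ne', e1]
        ring

private theorem hol_D {n : ℕ} (β t : ℝ) (a b : Fin n) (q x : Fin n → ℝ) (s : ℝ) :
    ∑ k : Option (Fin n), (k.elim (2 * cosh (β * t / 2)) fun k => if k = a ∨ k = b then 0 else 1) *
      exp (k.elim (β * x a) fun k => β * (x k + s * q k)) = Dt β t a b q x s := by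
  rw [Fintype.sum_option]
  simp only [Option.elim]
  unfold Dt
  congr 1
  refine Finset.sum_congr rfl fun k _ => ?_
  split_ifs
  · rw [zero_mul]
  · rw [one_mul]

/-- log-sum-exp is convex: divide by the right side, then `Real.geom_mean_le_arith_mean2_weighted`
for every term (`exp (θ u + (1-θ) v) = (exp u) ^ θ * (exp v) ^ (1-θ)`, also for the term with `cosh`) -/
theorem Dt_mid (β t : ℝ) (a b : Fin n) (q x x' : Fin n → ℝ) (s s' θ : ℝ) (h0 : 0 < θ) (h1 : θ < 1) :
    Dt β t a b q (θ • x + (1 - θ) • x') (θ * s + (1 - θ) * s') ≤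
      Dt β t a b q x s ^ θ * Dt β t a b q x' s' ^ (1 - θ) := by
  have hc : ∀ k : Option (Fin n),
      0 ≤ (k.elim (2 * cosh (β * t / 2)) fun k => if k = a ∨ k = b then (0 : ℝ) else 1) := by
    intro k
    cases k with
    | none => exact mul_nonneg (by norm_num) (cosh_pos _).le
    | some k =>
      simp only [Option.elim]
      split_ifs <;> norm_num
  have h := hol_sum _ _ _ hc (hol_D β t a b q x s) (hol_D β t a b q x' s') (Dt_pos β t a b q x s)
    (Dt_pos β t a b q x' s') h0 h1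
  rw [← hol_D β t a b q (θ • x + (1 - θ) • x') (θ * s + (1 - θ) * s')]
  refine le_of_eq_of_le (Finset.sum_congr rfl fun k _ => ?_) h
  congr 2
  cases k with
  | none =>
    simp only [Option.elim, Pi.add_apply, Pi.smul_apply, smul_eq_mul]
    ring
  | some k =>
    simp only [Option.elim, Pi.add_apply, Pi.smul_apply, smul_eq_mul]
    ring
-- END hol

-- BEGIN ltc
/-- `ℓ` is convex (logarithm of `Dt_mid`, `av` linear) -/
theorem Lt_mid (β t : ℝ) (a b : Fin n) (q x x' : Fin n → ℝ) (s s' θ : ℝ) (h0 : 0 < θ) (h1 : θ < 1) :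
    Lt β t a b q (θ • x + (1 - θ) • x') (θ * s + (1 - θ) * s') ≤
      θ * Lt β t a b q x s + (1 - θ) * Lt β t a b q x' s' := by
  have hp := Dt_pos β t a b q x s
  have hp' := Dt_pos β t a b q x' s'
  have hm := Dt_pos β t a b q (θ • x + (1 - θ) • x') (θ * s + (1 - θ) * s')
  have h2 := Real.log_le_log hm (Dt_mid β t a b q x x' s s' θ h0 h1)
  rw [Real.log_mul (Real.rpow_pos_of_pos hp _).ne' (Real.rpow_pos_of_pos hp' _).ne',
    Real.log_rpow hp, Real.log_rpow hp'] at h2
  have h3 : av (θ • x + (1 - θ) • x') = θ * av x + (1 - θ) * av x' := by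
    unfold av
    simp only [Pi.add_apply, Pi.smul_apply, smul_eq_mul]
    rw [Finset.sum_add_distrib, ← Finset.mul_sum, ← Finset.mul_sum]
    ring
  unfold Lt
  rw [h3]
  linarith
-- END ltc

-- BEGIN phi
/-- `-l + log (l + 1)` is nonincreasing and concave for `l ≥ 0`:
`l ≤ θ u + (1-θ) v`, `0 ≤ l, u, v` -/
theorem phi_mid (l u v θ : ℝ) (h0 : 0 < θ) (h1 : θ < 1) (hl : 0 ≤ l) (hu : 0 ≤ u) (hv : 0 ≤ v)
    (h : l ≤ θ * u + (1 - θ) * v) :
    θ * (-u + log (u + 1)) + (1 - θ) * (-v + log (v + 1)) ≤ -l + log (l + 1) := by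
  have h1' : 0 < 1 - θ := by linarith
  have hl1 : 0 < l + 1 := by linarith
  have hu1 : 0 < u + 1 := by linarith
  have hv1 : 0 < v + 1 := by linarith
  have hm0 : 0 ≤ θ * u + (1 - θ) * v := by positivity
  have hc := strictConcaveOn_log_Ioi.concaveOn.2 (Set.mem_Ioi.2 hu1) (Set.mem_Ioi.2 hv1) h0.le
    h1'.le (by ring)
  simp only [smul_eq_mul] at hc
  have e : θ * (u + 1) + (1 - θ) * (v + 1) = θ * u + (1 - θ) * v + 1 := by ring
  rw [e] at hc
  have e2 : θ * (-u + log (u + 1)) + (1 - θ) * (-v + log (v + 1)) =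
      -(θ * u + (1 - θ) * v) + (θ * log (u + 1) + (1 - θ) * log (v + 1)) := by ring
  rw [e2]
  generalize θ * u + (1 - θ) * v = m at *
  have hm : 0 < m + 1 := by linarith
  have h2 : log (m + 1) - log (l + 1) ≤ m - l := by
    rw [← log_div hm.ne' hl1.ne']
    refine (log_le_sub_one_of_pos (div_pos hm hl1)).trans ?_
    rw [div_sub_one hl1.ne', div_le_iff₀ hl1]
    nlinarith [mul_nonneg (sub_nonneg.2 h) hl]
  linarith
-- END phi

-- BEGIN lcv
/-- `h = exp (β x_a - β x̄ - l) (l + 1)`, `l = Lt` -/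
theorem ht_eq (β t : ℝ) (a b : Fin n) (q x : Fin n → ℝ) (s : ℝ) :
    ht β t a b q x s =
      exp (β * x a - β * av x - Lt β t a b q x s) * (Lt β t a b q x s + 1) := by
  have h := Dt_pos β t a b q x s
  have h1 : β * x a - β * av x - Lt β t a b q x s = β * x a - log (Dt β t a b q x s) := by
    unfold Lt
    ring
  rw [h1, exp_sub, exp_log h]
  unfold ht
  ring

/-- `h` is log-concave where `Lt ≥ 0` (logarithms, `Lt_mid`, `phi_mid`) -/
theorem ht_mid (β t : ℝ) (a b : Fin n) (q x x' : Fin n → ℝ) (s s' θ : ℝ) (h0 : 0 < θ) (h1 : θ < 1)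
    (hl : 0 ≤ Lt β t a b q x s) (hl' : 0 ≤ Lt β t a b q x' s')
    (hm : 0 ≤ Lt β t a b q (θ • x + (1 - θ) • x') (θ * s + (1 - θ) * s')) :
    ht β t a b q x s ^ θ * ht β t a b q x' s' ^ (1 - θ) ≤
      ht β t a b q (θ • x + (1 - θ) • x') (θ * s + (1 - θ) * s') := by
  have hL := Lt_mid β t a b q x x' s s' θ h0 h1
  have hp := phi_mid _ _ _ θ h0 h1 hm hl hl' hL
  rw [ht_eq, ht_eq, ht_eq]
  have hav : av (θ • x + (1 - θ) • x') = θ * av x + (1 - θ) * av x' := by
    unfold av
    simp only [Pi.add_apply, Pi.smul_apply, smul_eq_mul, Finset.sum_add_distrib, ← Finset.mul_sum]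
    ring
  have e1 : (θ • x + (1 - θ) • x') a = θ * x a + (1 - θ) * x' a := by
    simp only [Pi.add_apply, Pi.smul_apply, smul_eq_mul]
  rw [hav, e1]
  generalize Lt β t a b q x s = u at hl hL hp ⊢
  generalize Lt β t a b q x' s' = v at hl' hL hp ⊢
  generalize Lt β t a b q (θ • x + (1 - θ) • x') (θ * s + (1 - θ) * s') = l at hm hL hp ⊢
  have pu : 0 < u + 1 := by linarith
  have pv : 0 < v + 1 := by linarith
  have pl : 0 < l + 1 := by linarith
  have q1 : 0 < exp (β * x a - β * av x - u) * (u + 1) := mul_pos (exp_pos _) pu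
  have q2 : 0 < exp (β * x' a - β * av x' - v) * (v + 1) := mul_pos (exp_pos _) pv
  have q3 : 0 < exp (β * (θ * x a + (1 - θ) * x' a) - β * (θ * av x + (1 - θ) * av x') - l) *
      (l + 1) := mul_pos (exp_pos _) pl
  rw [← log_le_log_iff (mul_pos (rpow_pos_of_pos q1 _) (rpow_pos_of_pos q2 _)) q3,
    log_mul (rpow_pos_of_pos q1 _).ne' (rpow_pos_of_pos q2 _).ne', log_rpow q1, log_rpow q2,
    log_mul (exp_pos _).ne' pu.ne', log_mul (exp_pos _).ne' pv.ne', log_mul (exp_pos _).ne' pl.ne',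
    log_exp, log_exp, log_exp]
  linarith
-- END lcv

-- BEGIN lnn
private theorem lnn_av (t s : ℝ) (a b : Fin n) (q x : Fin n → ℝ) (hq : ∑ k, q k = 0) :
    av (fun k => x k + s * q k + (if k = a then t / 2 - s / 2 else 0) +
      (if k = b then -(t / 2) + s / 2 else 0)) = av x := by
  unfold av
  rw [Finset.sum_add_distrib, Finset.sum_add_distrib, Finset.sum_add_distrib, ← Finset.mul_sum, hq,
    Finset.sum_ite_eq', Finset.sum_ite_eq', if_pos (Finset.mem_univ _), if_pos (Finset.mem_univ _)]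
  congr 1
  ring

private theorem lnn_Sm (β t : ℝ) {a b : Fin n} (hab : a ≠ b) (q x : Fin n → ℝ) (s : ℝ)
    (hqa : q a = 1 / 2) (hqb : q b = -1 / 2) (hx : x a = x b) :
    Sm β (fun k => x k + s * q k + (if k = a then t / 2 - s / 2 else 0) +
      (if k = b then -(t / 2) + s / 2 else 0)) = Dt β t a b q x s := by
  unfold Sm Dt
  have h1 : ∀ k, exp (β * (x k + s * q k + (if k = a then t / 2 - s / 2 else 0) +
      (if k = b then -(t / 2) + s / 2 else 0))) =
      (if k = a then exp (β * x a) * exp (β * t / 2) else 0) +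
        (if k = b then exp (β * x a) * exp (-(β * t / 2)) else 0) +
        (if k = a ∨ k = b then 0 else exp (β * (x k + s * q k))) := by
    intro k
    by_cases hka : k = a
    · subst hka
      rw [if_pos rfl, if_pos rfl, if_neg hab, if_neg hab, if_pos (Or.inl rfl), hqa, ← exp_add]
      rw [add_zero, add_zero, add_zero]
      congr 1
      ring
    · by_cases hkb : k = b
      · subst hkb
        rw [if_neg hka, if_neg hka, if_pos rfl, if_pos rfl, if_pos (Or.inr rfl), hqb, ← exp_add, hx]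
        rw [zero_add, add_zero, add_zero]
        congr 1
        ring
      · have h2 : ¬ (k = a ∨ k = b) := by
          rintro (h | h)
          · exact hka h
          · exact hkb h
        rw [if_neg hka, if_neg hka, if_neg hkb, if_neg hkb, if_neg h2]
        rw [add_zero, add_zero, add_zero, zero_add]
  rw [Finset.sum_congr rfl fun k _ => h1 k, Finset.sum_add_distrib, Finset.sum_add_distrib,
    Finset.sum_ite_eq', Finset.sum_ite_eq', if_pos (Finset.mem_univ _), if_pos (Finset.mem_univ _),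
    Real.cosh_eq]
  ring

/-- `log n ≤ Lt` if `x_a = x_b`: `SMx.Lg_ge` at `y_a = x_a + t/2`, `y_b = x_b - t/2`,
`y_k = x_k + s q_k` (`∑_{k ≠ a, b} q_k = 0`) -/
theorem Lt_nonneg (β t : ℝ) {a b : Fin n} (hab : a ≠ b) (q x : Fin n → ℝ) (s : ℝ)
    (hq : ∑ k, q k = 0) (hqa : q a = 1 / 2) (hqb : q b = -1 / 2) (hx : x a = x b) :
    0 ≤ Lt β t a b q x s := by
  have hn : 0 < n := Fin.pos a
  have h1 := SMx.Lg_ge hn β (fun k => x k + s * q k + (if k = a then t / 2 - s / 2 else 0) +
      (if k = b then -(t / 2) + s / 2 else 0))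
  unfold Lg at h1
  rw [lnn_av t s a b q x hq, lnn_Sm β t hab q x s hqa hqb hx] at h1
  have h2 : 0 ≤ log (n : ℝ) := Real.log_natCast_nonneg n
  unfold Lt
  linarith
-- END lnn

-- BEGIN idn
private theorem idn_split {m : ℕ} {a b : Fin m} (hab : a ≠ b) (f : Fin m → ℝ) :
    ∑ k, f k = f a + f b + ∑ k, (if k = a ∨ k = b then 0 else f k) := by
  have h : ∀ k, f k = (if k = a then f k else 0) + (if k = b then f k else 0) +
      (if k = a ∨ k = b then 0 else f k) := by
    intro k
    by_cases h1 : k = a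
    · subst h1
      simp [hab]
    · by_cases h2 : k = b
      · subst h2
        simp [h1]
      · simp [h1, h2]
  rw [Finset.sum_congr rfl fun k _ => h k, Finset.sum_add_distrib, Finset.sum_add_distrib]
  simp

/-- the integrand at `y = x + t q` (`x_a = x_b`): `Sm β y = Dt` at `s = t`, `av y = av x`,
`π_a - π_b = 2 sinh (β t / 2) exp (β x_a) / D` -/
theorem ff_eq (β t : ℝ) {a b : Fin n} (hab : a ≠ b) (q x : Fin n → ℝ)
    (hq : ∑ k, q k = 0) (hqa : q a = 1 / 2) (hqb : q b = -1 / 2) (hx : x a = x b) :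
    ff β a b q (fun k => x k + t * q k) = 2 * sinh (β * t / 2) * et β t a b q x t := by
  have e1 : exp (β * (x a + t * q a)) = exp (β * x a) * exp (β * t / 2) := by
    rw [← exp_add, hqa]
    congr 1
    ring
  have e2 : exp (β * (x b + t * q b)) = exp (β * x a) * exp (-(β * t / 2)) := by
    rw [← exp_add, hqb, ← hx]
    congr 1
    ring
  have hS : Sm β (fun k => x k + t * q k) = Dt β t a b q x t := by
    unfold Sm Dt
    rw [idn_split hab fun k => exp (β * (x k + t * q k)), e1, e2, cosh_eq]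
    ring
  have hav : av (fun k => x k + t * q k) = av x := by
    unfold av
    rw [Finset.sum_add_distrib, ← Finset.mul_sum, hq, mul_zero, add_zero]
  have hD : Dt β t a b q x t ≠ 0 := (Dt_pos β t a b q x t).ne'
  have h1 : ∑ k, (if k = a ∨ k = b then 0 else q k * pw β (fun k => x k + t * q k) k) =
      St β a b q x t / Dt β t a b q x t := by
    unfold St
    rw [Finset.sum_div]
    refine Finset.sum_congr rfl fun k _ => ?_
    by_cases hk : k = a ∨ k = b
    · rw [if_pos hk, if_pos hk, zero_div]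
    · rw [if_neg hk, if_neg hk]
      unfold pw
      rw [hS, mul_div_assoc]
  have h2 : pw β (fun k => x k + t * q k) a - pw β (fun k => x k + t * q k) b =
      2 * sinh (β * t / 2) * exp (β * x a) / Dt β t a b q x t := by
    unfold pw
    rw [hS, e1, e2, sinh_eq]
    ring
  have h3 : Lg β (fun k => x k + t * q k) - β * av (fun k => x k + t * q k) =
      Lt β t a b q x t := by
    unfold Lg Lt
    rw [hS, hav]
  unfold ff et
  rw [h1, h2, h3]
  field_simp
-- END idn

-- BEGIN drv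
private theorem drv_D (β t : ℝ) (a b : Fin n) (q x : Fin n → ℝ) (s : ℝ) :
    HasDerivAt (fun s => Dt β t a b q x s) (β * St β a b q x s) s := by
  unfold Dt St
  rw [Finset.mul_sum]
  have h : ∀ k ∈ (Finset.univ : Finset (Fin n)),
      HasDerivAt (fun s => (if k = a ∨ k = b then (0:ℝ) else exp (β * (x k + s * q k))))
        (β * (if k = a ∨ k = b then 0 else q k * exp (β * (x k + s * q k)))) s := by
    intro k _
    by_cases hk : k = a ∨ k = b
    · simp only [if_pos hk, mul_zero]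
      exact hasDerivAt_const s (0:ℝ)
    · simp only [if_neg hk]
      have h1 : HasDerivAt (fun s => β * (x k + s * q k)) (β * q k) s := by
        have h2 := (((hasDerivAt_id s).mul_const (q k)).const_add (x k)).const_mul β
        simpa using h2
      have h3 := h1.exp
      have h4 : exp (β * (x k + s * q k)) * (β * q k) =
          β * (q k * exp (β * (x k + s * q k))) := by ring
      rw [h4] at h3
      exact h3
  exact (HasDerivAt.fun_sum h).const_add _

theorem ht_deriv (β t : ℝ) (a b : Fin n) (q x : Fin n → ℝ) (s : ℝ) :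
    HasDerivAt (fun s => ht β t a b q x s) (-(β * et β t a b q x s)) s := by
  have hD := drv_D β t a b q x s
  have hp := Dt_pos β t a b q x s
  have hL : HasDerivAt (fun s => Lt β t a b q x s)
      (β * St β a b q x s / Dt β t a b q x s) s := (hD.log hp.ne').sub_const (β * av x)
  have h := ((hL.add_const 1).const_mul (exp (β * x a))).div hD hp.ne'
  refine h.congr_deriv ?_
  unfold et
  have hp' := hp.ne'
  generalize Dt β t a b q x s = D at *
  generalize Lt β t a b q x s = L at *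
  generalize St β a b q x s = S at *
  field_simp
  ring
-- END drv

-- BEGIN lbd
private theorem lbd_mul (β y X : ℝ) (h : |y| ≤ X) : β * y ≤ |β| * X := by
  calc β * y ≤ |β * y| := le_abs_self _
    _ = |β| * |y| := abs_mul _ _
    _ ≤ |β| * X := mul_le_mul_of_nonneg_left h (abs_nonneg _)

private theorem lbd_mul' (β y X : ℝ) (h : |y| ≤ X) : -(|β| * X) ≤ β * y := by
  have := lbd_mul (-β) y X h
  rw [abs_neg] at this
  linarith

private theorem lbd_av (x : Fin n → ℝ) : |SMx.av x| ≤ ∑ i, |x i| := by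
  unfold SMx.av
  have h1 : |∑ i, x i| ≤ ∑ i, |x i| := Finset.abs_sum_le_sum_abs _ _
  rcases Nat.eq_zero_or_pos n with h0 | h0
  · subst h0
    simp
  · have h2 : (1 : ℝ) ≤ n := by exact_mod_cast h0
    rw [abs_div, abs_of_nonneg (by linarith : (0 : ℝ) ≤ n), div_le_iff₀ (by linarith)]
    have h3 : 0 ≤ ∑ i, |x i| := Finset.sum_nonneg fun i _ => abs_nonneg _
    nlinarith

private theorem lbd_up (β t : ℝ) (a b : Fin n) (q x : Fin n → ℝ) (R s : ℝ) (hs : |s| ≤ R) :
    Dt β t a b q x s ≤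
      (2 * cosh (β * t / 2) + n) * exp (|β| * (R * ∑ k, |q k|) + |β| * ∑ i, |x i|) := by
  have hR : 0 ≤ R := le_trans (abs_nonneg _) hs
  have hQ : 0 ≤ ∑ k, |q k| := Finset.sum_nonneg fun i _ => abs_nonneg _
  have hx : ∀ k, |x k| ≤ ∑ i, |x i| := fun k =>
    Finset.single_le_sum (f := fun i => |x i|) (fun i _ => abs_nonneg _) (Finset.mem_univ k)
  have hq : ∀ k, |q k| ≤ ∑ i, |q i| := fun k =>
    Finset.single_le_sum (f := fun i => |q i|) (fun i _ => abs_nonneg _) (Finset.mem_univ k)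
  have h1 : ∀ k, exp (β * (x k + s * q k)) ≤
      exp (|β| * (R * ∑ k, |q k|) + |β| * ∑ i, |x i|) := by
    intro k
    apply Real.exp_le_exp.2
    have h2 : |s * q k| ≤ R * ∑ k, |q k| := by
      rw [abs_mul]
      exact mul_le_mul hs (hq k) (abs_nonneg _) hR
    have h3 := lbd_mul β (x k) _ (hx k)
    have h4 := lbd_mul β (s * q k) _ h2
    rw [mul_add]
    linarith
  have h5 : exp (β * x a) ≤ exp (|β| * (R * ∑ k, |q k|) + |β| * ∑ i, |x i|) := by
    apply Real.exp_le_exp.2
    have h3 := lbd_mul β (x a) _ (hx a)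
    have h4 : 0 ≤ |β| * (R * ∑ k, |q k|) :=
      mul_nonneg (abs_nonneg _) (mul_nonneg hR hQ)
    linarith
  have h6 : (∑ k, (if k = a ∨ k = b then 0 else exp (β * (x k + s * q k)))) ≤
      n * exp (|β| * (R * ∑ k, |q k|) + |β| * ∑ i, |x i|) := by
    calc (∑ k, (if k = a ∨ k = b then 0 else exp (β * (x k + s * q k))))
        ≤ ∑ _k : Fin n, exp (|β| * (R * ∑ k, |q k|) + |β| * ∑ i, |x i|) := by
          apply Finset.sum_le_sum
          intro k _
          split_ifs
          · exact (exp_pos _).le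
          · exact h1 k
      _ = n * exp (|β| * (R * ∑ k, |q k|) + |β| * ∑ i, |x i|) := by
          rw [Finset.sum_const, Finset.card_univ, Fintype.card_fin, nsmul_eq_mul]
  unfold Dt
  have h7 : 2 * cosh (β * t / 2) * exp (β * x a) ≤
      2 * cosh (β * t / 2) * exp (|β| * (R * ∑ k, |q k|) + |β| * ∑ i, |x i|) :=
    mul_le_mul_of_nonneg_left h5 (by have := Real.cosh_pos (β * t / 2); linarith)
  linarith

/-- `|Lt| ≤ C + K ∑ |x_i|`, uniformly for `|s| ≤ R` -/
theorem Lt_bound (β t : ℝ) (a b : Fin n) (q : Fin n → ℝ) (R : ℝ) :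
    ∃ C K : ℝ, 0 ≤ C ∧ 0 ≤ K ∧ ∀ (s : ℝ) (x : Fin n → ℝ), |s| ≤ R →
      |Lt β t a b q x s| ≤ C + K * ∑ i, |x i| := by
  have hc : 1 ≤ cosh (β * t / 2) := Real.one_le_cosh _
  have hn : (0 : ℝ) ≤ n := Nat.cast_nonneg n
  have hM : 1 ≤ 2 * cosh (β * t / 2) + (n : ℝ) := by linarith
  have hlog : 0 ≤ log (2 * cosh (β * t / 2) + (n : ℝ)) := Real.log_nonneg hM
  have hQ : 0 ≤ ∑ k, |q k| := Finset.sum_nonneg fun i _ => abs_nonneg _
  refine ⟨log (2 * cosh (β * t / 2) + (n : ℝ)) + |β| * (|R| * ∑ k, |q k|), 2 * |β|,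
    by positivity, by positivity, ?_⟩
  intro s x hs
  have hR : 0 ≤ R := le_trans (abs_nonneg _) hs
  rw [abs_of_nonneg hR]
  have hX : 0 ≤ ∑ i, |x i| := Finset.sum_nonneg fun i _ => abs_nonneg _
  have hxa : |x a| ≤ ∑ i, |x i| :=
    Finset.single_le_sum (f := fun i => |x i|) (fun i _ => abs_nonneg _) (Finset.mem_univ a)
  have hD := Dt_pos β t a b q x s
  have hup : log (Dt β t a b q x s) ≤ log (2 * cosh (β * t / 2) + (n : ℝ)) +
      (|β| * (R * ∑ k, |q k|) + |β| * ∑ i, |x i|) := by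
    calc log (Dt β t a b q x s)
        ≤ log ((2 * cosh (β * t / 2) + n) *
            exp (|β| * (R * ∑ k, |q k|) + |β| * ∑ i, |x i|)) :=
          Real.log_le_log hD (lbd_up β t a b q x R s hs)
      _ = _ := by
          rw [Real.log_mul (by linarith) (exp_pos _).ne', Real.log_exp]
  have hlo : -(|β| * ∑ i, |x i|) ≤ log (Dt β t a b q x s) := by
    rw [Real.le_log_iff_exp_le hD]
    have h1 := exp_le_Dt β t a b q x s
    have h2 : exp (-(|β| * ∑ i, |x i|)) ≤ exp (β * x a) :=
      Real.exp_le_exp.2 (lbd_mul' β (x a) _ hxa)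
    linarith
  have h3 := lbd_mul β (SMx.av x) _ (lbd_av x)
  have h4 := lbd_mul' β (SMx.av x) _ (lbd_av x)
  have h5 : 0 ≤ |β| * (R * ∑ k, |q k|) := by positivity
  unfold Lt
  rw [abs_le]
  constructor <;> nlinarith
-- END lbd

-- BEGIN hbd
private theorem hbd_le {e D l S Q M : ℝ} (he : 0 < e) (hD : 0 < D) (heD : e ≤ D / 2)
    (hl : |l| ≤ M) (hS : |S| ≤ Q * D) (hQ : 0 ≤ Q) :
    |e * (l + 1) / D| ≤ (M + 1) * (1 + Q) ∧ |e * l * S / D ^ 2| ≤ (M + 1) * (1 + Q) := by
  have hM : 0 ≤ M := (abs_nonneg l).trans hl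
  have h1 : |l + 1| ≤ M + 1 := by
    have := abs_add_le l 1
    rw [abs_one] at this
    linarith
  have h2 : 0 ≤ (M + 1) * Q := mul_nonneg (by linarith) hQ
  constructor
  · rw [abs_div, abs_mul, abs_of_pos he, abs_of_pos hD, div_le_iff₀ hD]
    have h3 : e * |l + 1| ≤ D / 2 * (M + 1) :=
      mul_le_mul heD h1 (abs_nonneg _) (by linarith)
    have h4 : 0 ≤ (M + 1) * Q * D := mul_nonneg h2 hD.le
    have h5 : 0 ≤ (M + 1) * D := mul_nonneg (by linarith) hD.le
    nlinarith
  · rw [abs_div, abs_mul, abs_mul, abs_of_pos he, abs_of_pos (pow_pos hD 2),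
      div_le_iff₀ (pow_pos hD 2)]
    have h3 : e * |l| ≤ D / 2 * M := mul_le_mul heD hl (abs_nonneg _) (by linarith)
    have h4 : e * |l| * |S| ≤ D / 2 * M * (Q * D) :=
      mul_le_mul h3 hS (abs_nonneg _) (mul_nonneg (by linarith) hM)
    have h5 : 0 ≤ (M + 1) * D ^ 2 := mul_nonneg (by linarith) (pow_pos hD 2).le
    have h6 : 0 ≤ M * Q * D ^ 2 := mul_nonneg (mul_nonneg hM hQ) (pow_pos hD 2).le
    have h7 : 0 ≤ Q * D ^ 2 := mul_nonneg hQ (pow_pos hD 2).le
    nlinarith

/-- `|ht|`, `|et| ≤ C + K ∑ |x_i|`, uniformly for `|s| ≤ R` (`exp_le_Dt`, `St_le`, `Lt_bound`) -/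
theorem ht_bound (β t : ℝ) (a b : Fin n) (q : Fin n → ℝ) (R : ℝ) :
    ∃ C K : ℝ, 0 ≤ C ∧ 0 ≤ K ∧ ∀ (s : ℝ) (x : Fin n → ℝ), |s| ≤ R →
      |ht β t a b q x s| ≤ C + K * ∑ i, |x i| ∧ |et β t a b q x s| ≤ C + K * ∑ i, |x i| := by
  obtain ⟨C, K, hC, hK, h⟩ := Lt_bound β t a b q R
  have hQ : 0 ≤ ∑ k, |q k| := Finset.sum_nonneg fun k _ => abs_nonneg _
  refine ⟨(C + 1) * (1 + ∑ k, |q k|), K * (1 + ∑ k, |q k|), by positivity, by positivity,
    fun s x hs => ?_⟩
  have h0 := hbd_le (exp_pos (β * x a)) (Dt_pos β t a b q x s) (exp_le_Dt β t a b q x s)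
    (h s x hs) (St_le β t a b q x s) hQ
  have h1 : (C + K * ∑ i, |x i| + 1) * (1 + ∑ k, |q k|) =
      (C + 1) * (1 + ∑ k, |q k|) + K * (1 + ∑ k, |q k|) * ∑ i, |x i| := by ring
  rw [h1] at h0
  exact h0
-- END hbd

-- BEGIN grh
private theorem grh_of {g : (Fin n → ℝ) → ℝ} (hc : Continuous g) {C K : ℝ} (hC : 0 ≤ C)
    (hK : 0 ≤ K) (h : ∀ x, |g x| ≤ C + K * ∑ i, |x i|) : Gr g := by
  refine ⟨hc, C + 1, K, by linarith, hK, fun x => (h x).trans ?_⟩
  have hS : 0 ≤ ∑ i, |x i| := Finset.sum_nonneg fun i _ => abs_nonneg _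
  have h1 : K * ∑ i, |x i| + 1 ≤ exp (K * ∑ i, |x i|) := add_one_le_exp _
  have h2 : 0 ≤ K * ∑ i, |x i| := mul_nonneg hK hS
  nlinarith [mul_nonneg hC h2, mul_le_mul_of_nonneg_left h1 (by linarith : (0:ℝ) ≤ C + 1)]

private theorem grh_D (β t : ℝ) (a b : Fin n) (q : Fin n → ℝ) (s : ℝ) :
    Continuous (fun x => Dt β t a b q x s) := by
  unfold Dt
  refine Continuous.add (continuous_const.mul (continuous_exp.comp
    (continuous_const.mul (continuous_apply a)))) ?_
  refine continuous_finsetSum _ fun k _ => ?_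
  by_cases hk : k = a ∨ k = b
  · simp only [if_pos hk]
    exact continuous_const
  · simp only [if_neg hk]
    exact continuous_exp.comp (continuous_const.mul ((continuous_apply k).add continuous_const))

private theorem grh_S (β : ℝ) (a b : Fin n) (q : Fin n → ℝ) (s : ℝ) :
    Continuous (fun x => St β a b q x s) := by
  unfold St
  refine continuous_finsetSum _ fun k _ => ?_
  by_cases hk : k = a ∨ k = b
  · simp only [if_pos hk]
    exact continuous_const
  · simp only [if_neg hk]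
    exact continuous_const.mul
      (continuous_exp.comp (continuous_const.mul ((continuous_apply k).add continuous_const)))

private theorem grh_L (β t : ℝ) (a b : Fin n) (q : Fin n → ℝ) (s : ℝ) :
    Continuous (fun x => Lt β t a b q x s) := by
  unfold Lt
  refine Continuous.sub ((grh_D β t a b q s).log fun x => (Dt_pos β t a b q x s).ne')
    (continuous_const.mul ?_)
  unfold av
  exact (continuous_finsetSum _ fun i _ => continuous_apply i).div_const _

/-- continuity and growth for fixed `s` (`ht_bound`, `1 + K y ≤ exp (K y)`) -/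
theorem Gr_ht (β t : ℝ) (a b : Fin n) (q : Fin n → ℝ) (s : ℝ) :
    Gr (fun x => ht β t a b q x s) := by
  obtain ⟨C, K, hC, hK, h⟩ := ht_bound β t a b q |s|
  refine grh_of ?_ hC hK fun x => (h s x le_rfl).1
  unfold ht
  exact ((continuous_exp.comp (continuous_const.mul (continuous_apply a))).mul
    ((grh_L β t a b q s).add continuous_const)).div (grh_D β t a b q s)
    fun x => (Dt_pos β t a b q x s).ne'

theorem Gr_et (β t : ℝ) (a b : Fin n) (q : Fin n → ℝ) (s : ℝ) :
    Gr (fun x => et β t a b q x s) := by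
  obtain ⟨C, K, hC, hK, h⟩ := ht_bound β t a b q |s|
  refine grh_of ?_ hC hK fun x => (h s x le_rfl).2
  unfold et
  exact (((continuous_exp.comp (continuous_const.mul (continuous_apply a))).mul
    (grh_L β t a b q s)).mul (grh_S β a b q s)).div ((grh_D β t a b q s).pow 2)
    fun x => pow_ne_zero 2 (Dt_pos β t a b q x s).ne'
-- END grh

-- BEGIN kdv
/-- differentiation under the integral (`hasDerivAt_integral_of_dominated_loc_of_deriv_le` on the
ball of radius one, `ht_bound`, `ht_deriv`) -/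
theorem K_deriv (B : Fin n → ι → ℝ) (β t : ℝ) (a b : Fin n) (q : Fin n → ℝ) (s : ℝ) :
    HasDerivAt (fun s => EG B (fun x => ht β t a b q x s))
      (-(β * EG B (fun x => et β t a b q x s))) s := by
  obtain ⟨C, K, hC, hK, hb⟩ := ht_bound β t a b q (|s| + 1)
  have hg : Gr (fun x : Fin n → ℝ => |β| * (C + K * ∑ i, |x i|)) := by
    refine ⟨by fun_prop, |β| * (C + K), 1, by positivity, zero_le_one, fun x => ?_⟩
    have hS : 0 ≤ ∑ i, |x i| := Finset.sum_nonneg fun i _ => abs_nonneg _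
    have h1 : 1 ≤ exp (1 * ∑ i, |x i|) := one_le_exp (by linarith)
    have h2 : ∑ i, |x i| ≤ exp (1 * ∑ i, |x i|) := by
      have := add_one_le_exp (1 * ∑ i, |x i|)
      linarith
    rw [abs_of_nonneg (by positivity), mul_assoc]
    refine mul_le_mul_of_nonneg_left ?_ (abs_nonneg β)
    rw [add_mul]
    exact add_le_add (by nlinarith) (mul_le_mul_of_nonneg_left h2 hK)
  have h := hasDerivAt_integral_of_dominated_loc_of_deriv_le (μ := γ ι)
    (F := fun s z => ht β t a b q (lin B z) s)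
    (F' := fun s z => -(β * et β t a b q (lin B z) s)) (x₀ := s) (s := Metric.ball s 1)
    (bound := fun z => |β| * (C + K * ∑ i, |lin B z i|)) (Metric.ball_mem_nhds s one_pos)
    (Filter.Eventually.of_forall fun s' => ((Gr_ht β t a b q s').integrable B).aestronglyMeasurable)
    ((Gr_ht β t a b q s).integrable B)
    ((((Gr_et β t a b q s).integrable B).const_mul β).neg.aestronglyMeasurable)
    (Filter.Eventually.of_forall fun z s' hs' => by
      have h1 : |s'| ≤ |s| + 1 := by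
        rw [Metric.mem_ball, Real.dist_eq] at hs'
        have h2 := abs_sub_abs_le_abs_sub s' s
        linarith
      rw [norm_neg, norm_mul, Real.norm_eq_abs, Real.norm_eq_abs]
      exact mul_le_mul_of_nonneg_left (hb s' (lin B z) h1).2 (abs_nonneg β))
    (hg.integrable B)
    (Filter.Eventually.of_forall fun z s' _ => ht_deriv β t a b q (lin B z) s')
  have e : ∫ z, -(β * et β t a b q (lin B z) s) ∂(γ ι) =
      -(β * EG B (fun x => et β t a b q x s)) := by
    rw [integral_neg, integral_const_mul]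
    rfl
  rw [← e]
  exact h.2
-- END kdv

-- BEGIN evp
/-- invariance under a permutation that keeps the covariance (`SM3.EG_congr` for
`fun i => B (σ i)`) -/
theorem EG_inv (B : Fin n → ι → ℝ) (σ : Equiv.Perm (Fin n))
    (h : ∀ i j, cv B (σ i) (σ j) = cv B i j) {g : (Fin n → ℝ) → ℝ} (hg : Gr g) :
    EG B (fun x => g (fun i => x (σ i))) = EG B g := by
  show EG (fun i => B (σ i)) g = EG B g
  exact SM3.EG_congr (fun i => B (σ i)) B (fun i j => h i j) hg
-- END evp

-- BEGIN evh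
/-- for `x_a = x_b`: `Dt` at `x ∘ σ`, `s` is `Dt` at `x`, `-s` (reindex by `σ`, which keeps
`{a, b}`), `av (x ∘ σ) = av x` -/
theorem ht_perm (β t : ℝ) {a b : Fin n} (q x : Fin n → ℝ) (s : ℝ) (σ : Equiv.Perm (Fin n))
    (sa : σ a = b) (sb : σ b = a) (hq : ∀ j, q (σ j) = -q j) (hx : x a = x b) :
    ht β t a b q (fun i => x (σ i)) s = ht β t a b q x (-s) := by
  have hi : ∀ k, (σ k = a ∨ σ k = b) ↔ (k = a ∨ k = b) := by
    intro k
    constructor
    · rintro (h | h)
      · exact Or.inr (σ.injective (h.trans sb.symm))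
      · exact Or.inl (σ.injective (h.trans sa.symm))
    · rintro (rfl | rfl)
      · exact Or.inr sa
      · exact Or.inl sb
  have hD : Dt β t a b q (fun i => x (σ i)) s = Dt β t a b q x (-s) := by
    unfold Dt
    have h2 : ∑ k, (if k = a ∨ k = b then 0 else exp (β * (x (σ k) + s * q k))) =
        ∑ k, (if k = a ∨ k = b then 0 else exp (β * (x k + -s * q k))) := by
      rw [← Equiv.sum_comp σ fun k => (if k = a ∨ k = b then 0 else exp (β * (x k + -s * q k)))]
      refine Finset.sum_congr rfl fun k _ => ?_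
      by_cases hk : k = a ∨ k = b
      · rw [if_pos hk, if_pos ((hi k).2 hk)]
      · rw [if_neg hk, if_neg fun h => hk ((hi k).1 h), hq k]
        congr 1
        ring
    rw [h2]
    simp only [sa, ← hx]
  have hav : av (fun i => x (σ i)) = av x := by
    unfold av
    rw [Equiv.sum_comp σ x]
  unfold ht Lt
  rw [hD, hav]
  simp only [sa, ← hx]
-- END evh

-- BEGIN evn
/-- `K` is even (`EG_inv`, `ht_perm`; `lin B z a = lin B z b` by `Dat.row`) -/
theorem K_even (B : Fin n → ι → ℝ) (β t : ℝ) {a b : Fin n} {q : Fin n → ℝ}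
    {σ : Equiv.Perm (Fin n)} (h : Dat B q a b σ) (s : ℝ) :
    EG B (fun x => ht β t a b q x (-s)) = EG B (fun x => ht β t a b q x s) := by
  have h1 : ∀ z, ht β t a b q (lin B z) (-s) = ht β t a b q (fun i => lin B z (σ i)) s := by
    intro z
    have hx : lin B z a = lin B z b := by
      unfold lin
      rw [h.row]
    exact (ht_perm β t q (lin B z) s σ h.sa h.sb h.sq hx).symm
  have h2 : EG B (fun x => ht β t a b q x (-s)) = EG B (fun x => ht β t a b q (fun i => x (σ i)) s) := by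
    unfold EG
    simp only [h1]
  rw [h2]
  exact EG_inv B σ h.sc (g := fun x => ht β t a b q x s) (Gr_ht β t a b q s)
-- END evn

-- BEGIN den
private theorem den_set (s : Set ℝ) (hs : MeasurableSet s) :
    gaussianReal 0 1 s = ENNReal.ofReal (∫ x, s.indicator (gaussianPDFReal 0 1) x) := by
  rw [gaussianReal_apply_eq_integral 0 one_ne_zero, integral_indicator hs]

private theorem den_wd : γ ι = volume.withDensity
    (fun z : ι → ℝ => ∏ k, gaussianPDF 0 1 (z k)) := by
  classical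
  unfold γ
  refine Measure.pi_eq (fun s hs => ?_)
  rw [withDensity_apply _ (MeasurableSet.univ_pi hs)]
  have hn : ∀ (k : ι) (x : ℝ), 0 ≤ (s k).indicator (gaussianPDFReal 0 1) x := fun k x =>
    Set.indicator_nonneg (fun y _ => gaussianPDFReal_nonneg 0 1 y) x
  have h1 : ∏ k, gaussianReal 0 1 (s k) =
      ENNReal.ofReal (∫ z : ι → ℝ, ∏ k, (s k).indicator (gaussianPDFReal 0 1) (z k)) := by
    rw [integral_fintype_prod_volume_eq_prod
      (f := fun k x => (s k).indicator (gaussianPDFReal 0 1) x),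
      ENNReal.ofReal_prod_of_nonneg (fun k _ => integral_nonneg (hn k))]
    exact Finset.prod_congr rfl fun k _ => den_set (s k) (hs k)
  rw [h1, ofReal_integral_eq_lintegral_ofReal]
  · rw [← lintegral_indicator (MeasurableSet.univ_pi hs)]
    refine lintegral_congr fun z => ?_
    by_cases hz : z ∈ Set.univ.pi s
    · rw [Set.indicator_of_mem hz, ENNReal.ofReal_prod_of_nonneg (fun k _ => hn k (z k))]
      refine Finset.prod_congr rfl fun k _ => ?_
      rw [Set.indicator_of_mem (hz k (Set.mem_univ k))]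
      rfl
    · rw [Set.indicator_of_notMem hz]
      rw [Set.mem_univ_pi] at hz
      push Not at hz
      obtain ⟨k, hk⟩ := hz
      rw [Finset.prod_eq_zero (Finset.mem_univ k) (Set.indicator_of_notMem hk _),
        ENNReal.ofReal_zero]
  · exact Integrable.fintype_prod (f := fun k x => (s k).indicator (gaussianPDFReal 0 1) x)
      (fun k => (integrable_gaussianPDFReal 0 1).indicator (hs k))
  · exact Filter.Eventually.of_forall fun z => Finset.prod_nonneg fun k _ => hn k (z k)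

/-- the density of the standard Gaussian measure -/
theorem dens {f : (ι → ℝ) → ℝ≥0∞} (hf : Measurable f) :
    ∫⁻ z, f z ∂(γ ι) = ∫⁻ z, f z * ∏ k, gaussianPDF 0 1 (z k) := by
  have hm : Measurable (fun z : ι → ℝ => ∏ k, gaussianPDF 0 1 (z k)) :=
    Finset.measurable_prod _ fun k _ => (measurable_gaussianPDF 0 1).comp (measurable_pi_apply k)
  rw [den_wd, lintegral_withDensity_eq_lintegral_mul _ hm hf]
  refine lintegral_congr fun z => ?_
  rw [Pi.mul_apply, mul_comm]
-- END den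

-- BEGIN pdf
/-- the Gaussian density is log-concave -/
theorem pdf_mid (z w θ : ℝ) (h0 : 0 < θ) (h1 : θ < 1) :
    gaussianPDF 0 1 z ^ θ * gaussianPDF 0 1 w ^ (1 - θ) ≤
      gaussianPDF 0 1 (θ * z + (1 - θ) * w) := by
  have hp := fun z => gaussianPDFReal_pos 0 1 z (by norm_num)
  unfold gaussianPDF
  rw [ENNReal.ofReal_rpow_of_pos (hp z), ENNReal.ofReal_rpow_of_pos (hp w),
    ← ENNReal.ofReal_mul (Real.rpow_nonneg (hp z).le _)]
  refine ENNReal.ofReal_le_ofReal ?_
  set c : ℝ := (√(2 * π * (1 : NNReal)))⁻¹ with hc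
  have hc0 : 0 < c := by rw [hc]; positivity
  have e : ∀ z, gaussianPDFReal 0 1 z = c * exp (-(z ^ 2) / 2) := by
    intro z
    simp only [gaussianPDFReal, hc, sub_zero, NNReal.coe_one, mul_one]
  rw [e, e, e, Real.mul_rpow hc0.le (exp_pos _).le, Real.mul_rpow hc0.le (exp_pos _).le,
    ← Real.exp_mul, ← Real.exp_mul]
  have e1 : c ^ θ * exp (-(z ^ 2) / 2 * θ) * (c ^ (1 - θ) * exp (-(w ^ 2) / 2 * (1 - θ))) =
      (c ^ θ * c ^ (1 - θ)) * exp (-(z ^ 2) / 2 * θ + -(w ^ 2) / 2 * (1 - θ)) := by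
    rw [exp_add]
    ring
  rw [e1, ← Real.rpow_add hc0, show θ + (1 - θ) = 1 by ring, Real.rpow_one]
  refine mul_le_mul_of_nonneg_left (exp_le_exp.2 ?_) hc0.le
  nlinarith [mul_nonneg (mul_nonneg h0.le (sub_nonneg.2 h1.le)) (sq_nonneg (z - w))]
-- END pdf

-- BEGIN plg
/-- Prékopa-Leindler for the standard Gaussian measure (`Pool.Agent.Hmk.pl_fin`, `dens`,
`pdf_mid`) -/
theorem pl_gauss {f g h : (ι → ℝ) → ℝ≥0∞} (hf : Measurable f) (hg : Measurable g)
    (hh : Measurable h) {θ : ℝ} (h0 : 0 < θ) (h1 : θ < 1)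
    (H : ∀ x y, f x ^ θ * g y ^ (1 - θ) ≤ h (θ • x + (1 - θ) • y)) :
    (∫⁻ x, f x ∂(γ ι)) ^ θ * (∫⁻ x, g x ∂(γ ι)) ^ (1 - θ) ≤ ∫⁻ x, h x ∂(γ ι) := by
  have hρ : Measurable (fun x : ι → ℝ => ∏ i, gaussianPDF 0 1 (x i)) :=
    Finset.measurable_prod _ fun i _ => (measurable_gaussianPDF 0 1).comp (measurable_pi_apply i)
  rw [dens hf, dens hg, dens hh]
  refine Pool.Agent.Hmk.pl_fin (hf.mul hρ) (hg.mul hρ) (hh.mul hρ) h0 h1 fun x y => ?_
  simp only [Pi.mul_apply]
  rw [ENNReal.mul_rpow_of_nonneg _ _ h0.le, ENNReal.mul_rpow_of_nonneg _ _ (by linarith)]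
  have h2 : (∏ i, gaussianPDF 0 1 (x i)) ^ θ * (∏ i, gaussianPDF 0 1 (y i)) ^ (1 - θ) ≤
      ∏ i, gaussianPDF 0 1 ((θ • x + (1 - θ) • y) i) := by
    rw [← ENNReal.prod_rpow_of_nonneg h0.le, ← ENNReal.prod_rpow_of_nonneg (by linarith),
      ← Finset.prod_mul_distrib]
    exact Finset.prod_le_prod' fun i _ => pdf_mid (x i) (y i) θ h0 h1
  calc f x ^ θ * (∏ i, gaussianPDF 0 1 (x i)) ^ θ *
        (g y ^ (1 - θ) * (∏ i, gaussianPDF 0 1 (y i)) ^ (1 - θ))
      = (f x ^ θ * g y ^ (1 - θ)) *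
        ((∏ i, gaussianPDF 0 1 (x i)) ^ θ * (∏ i, gaussianPDF 0 1 (y i)) ^ (1 - θ)) := by ring
    _ ≤ _ := mul_le_mul' (H x y) h2
-- END plg

-- BEGIN klc
private theorem klc_lin (B : Fin n → ι → ℝ) (θ : ℝ) (x y : ι → ℝ) :
    lin B (θ • x + (1 - θ) • y) = θ • lin B x + (1 - θ) • lin B y := by
  funext i
  simp only [lin, Pi.add_apply, Pi.smul_apply, smul_eq_mul]
  rw [Finset.mul_sum, Finset.mul_sum, ← Finset.sum_add_distrib]
  exact Finset.sum_congr rfl fun k _ => by ring

private theorem klc_q {B : Fin n → ι → ℝ} {a b : Fin n} {q : Fin n → ℝ}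
    {σ : Equiv.Perm (Fin n)} (h : Dat B q a b σ) : ∑ k, q k = 0 := by
  have h1 : ∑ k, q (σ k) = ∑ k, q k := Equiv.sum_comp σ q
  simp only [h.sq, Finset.sum_neg_distrib] at h1
  linarith

private theorem klc_L {B : Fin n → ι → ℝ} (β t : ℝ) {a b : Fin n} {q : Fin n → ℝ}
    {σ : Equiv.Perm (Fin n)} (h : Dat B q a b σ) (z : ι → ℝ) (s : ℝ) :
    0 ≤ Lt β t a b q (lin B z) s :=
  Lt_nonneg β t h.ne q _ s (klc_q h) h.qa h.qb (by unfold lin; rw [h.row])

/-- `K` is log-concave in `s` (`pl_gauss` for `ENNReal.ofReal (ht (lin B z) s)`, `ht_mid`,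
`Lt_nonneg`; `ofReal_integral_eq_lintegral_ofReal`) -/
theorem K_logc (B : Fin n → ι → ℝ) (β t : ℝ) {a b : Fin n} {q : Fin n → ℝ}
    {σ : Equiv.Perm (Fin n)} (h : Dat B q a b σ) (s s' θ : ℝ) (h0 : 0 < θ) (h1 : θ < 1) :
    EG B (fun x => ht β t a b q x s) ^ θ * EG B (fun x => ht β t a b q x s') ^ (1 - θ) ≤
      EG B (fun x => ht β t a b q x (θ * s + (1 - θ) * s')) := by
  have h2 : (0 : ℝ) ≤ 1 - θ := by linarith
  have hn : ∀ (z : ι → ℝ) (r : ℝ), 0 ≤ ht β t a b q (lin B z) r := by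
    intro z r
    unfold ht
    have h3 := klc_L β t h z r
    exact div_nonneg (mul_nonneg (exp_pos _).le (by linarith)) (Dt_pos β t a b q _ r).le
  have hm : ∀ r : ℝ, Measurable (fun z : ι → ℝ => ENNReal.ofReal (ht β t a b q (lin B z) r)) :=
    fun r => ((Gr_ht β t a b q r).comp_lin B).1.measurable.ennreal_ofReal
  have hE : ∀ r : ℝ, ENNReal.ofReal (EG B (fun x => ht β t a b q x r)) =
      ∫⁻ z, ENNReal.ofReal (ht β t a b q (lin B z) r) ∂(γ ι) := fun r =>
    ofReal_integral_eq_lintegral_ofReal ((Gr_ht β t a b q r).comp_lin B).int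
      (Filter.Eventually.of_forall fun z => hn z r)
  have hK : ∀ r : ℝ, 0 ≤ EG B (fun x => ht β t a b q x r) := fun r =>
    integral_nonneg fun z => hn z r
  have hpl := pl_gauss (hm s) (hm s') (hm (θ * s + (1 - θ) * s')) h0 h1 (by
    intro x y
    rw [ENNReal.ofReal_rpow_of_nonneg (hn x s) h0.le, ENNReal.ofReal_rpow_of_nonneg (hn y s') h2,
      ← ENNReal.ofReal_mul (rpow_nonneg (hn x s) _)]
    refine ENNReal.ofReal_le_ofReal ?_
    have h3 := klc_L β t h (θ • x + (1 - θ) • y) (θ * s + (1 - θ) * s')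
    rw [klc_lin] at h3 ⊢
    exact ht_mid β t a b q _ _ s s' θ h0 h1 (klc_L β t h x s) (klc_L β t h y s') h3)
  rw [← hE, ← hE, ← hE, ENNReal.ofReal_rpow_of_nonneg (hK s) h0.le,
    ENNReal.ofReal_rpow_of_nonneg (hK s') h2, ← ENNReal.ofReal_mul (rpow_nonneg (hK s) _)] at hpl
  exact (ENNReal.ofReal_le_ofReal_iff (hK _)).1 hpl
-- END klc

-- BEGIN kan
private theorem kan_nn (B : Fin n → ι → ℝ) (β t : ℝ) {a b : Fin n} {q : Fin n → ℝ}
    {σ : Equiv.Perm (Fin n)} (h : Dat B q a b σ) (s : ℝ) :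
    0 ≤ EG B (fun x => ht β t a b q x s) := by
  have hq : ∑ k, q k = 0 := by
    have h1 : ∑ k, q (σ k) = ∑ k, q k := Equiv.sum_comp σ q
    have h2 : ∑ k, q (σ k) = -∑ k, q k := by
      rw [← Finset.sum_neg_distrib]
      exact Finset.sum_congr rfl fun k _ => h.sq k
    linarith
  unfold EG
  refine integral_nonneg fun z => ?_
  have hx : lin B z a = lin B z b := by
    unfold lin
    rw [h.row]
  have hL := Lt_nonneg β t h.ne q (lin B z) s hq h.qa h.qb hx
  change 0 ≤ ht β t a b q (lin B z) s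
  unfold ht
  exact div_nonneg (mul_nonneg (exp_pos _).le (by linarith)) (Dt_pos β t a b q (lin B z) s).le

/-- `K` decreases on `[0, ∞)`: `s` is a convex combination of `s'` and `-s'` (`K_logc`, `K_even`;
`s = s'` trivial) -/
theorem K_anti (B : Fin n → ι → ℝ) (β t : ℝ) {a b : Fin n} {q : Fin n → ℝ}
    {σ : Equiv.Perm (Fin n)} (h : Dat B q a b σ) {s s' : ℝ} (hs : 0 ≤ s) (hss : s ≤ s') :
    EG B (fun x => ht β t a b q x s') ≤ EG B (fun x => ht β t a b q x s) := by
  rcases eq_or_lt_of_le hss with h1 | h1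
  · rw [h1]
  · have hs' : 0 < s' := lt_of_le_of_lt hs h1
    have hθ0 : 0 < (s + s') / (2 * s') := by positivity
    have hθ1 : (s + s') / (2 * s') < 1 := by
      rw [div_lt_one (by positivity)]
      linarith
    have h2 := K_logc B β t h s' (-s') ((s + s') / (2 * s')) hθ0 hθ1
    have h3 : (s + s') / (2 * s') * s' + (1 - (s + s') / (2 * s')) * -s' = s := by
      field_simp
      ring
    rw [K_even B β t h s', h3,
      ← Real.rpow_add_of_nonneg (kan_nn B β t h s') hθ0.le (by linarith), add_sub_cancel,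
      Real.rpow_one] at h2
    exact h2
-- END kan

-- BEGIN dsg
private theorem dsg_aux (K : ℝ → ℝ) (β E t : ℝ) (hβ : 0 < β) (hd : HasDerivAt K (-(β * E)) t)
    (ha : ∀ s s' : ℝ, 0 ≤ s → s ≤ s' → K s' ≤ K s) (he : ∀ s : ℝ, K (-s) = K s) :
    0 ≤ sinh (β * t / 2) * E := by
  rcases le_total 0 t with h0 | h0
  · have h1 : -(β * E) ≤ 0 := by
      refine le_of_tendsto hd.tendsto_slope_zero_right ?_
      filter_upwards [self_mem_nhdsWithin] with r hr
      have hr0 : 0 < r := hr
      rw [smul_eq_mul]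
      exact mul_nonpos_of_nonneg_of_nonpos (inv_nonneg.2 hr0.le)
        (sub_nonpos.2 (ha t (t + r) h0 (by linarith)))
    have h3 : 0 ≤ E := (mul_nonneg_iff_of_pos_left hβ).1 (by linarith)
    exact mul_nonneg (Real.sinh_nonneg_iff.2 (by positivity)) h3
  · have h1 : 0 ≤ -(β * E) := by
      refine ge_of_tendsto hd.tendsto_slope_zero_left ?_
      filter_upwards [self_mem_nhdsWithin] with r hr
      have hr0 : r < 0 := hr
      have h2 : K (t + r) ≤ K t := by
        rw [← he (t + r), ← he t]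
        exact ha (-t) (-(t + r)) (by linarith) (by linarith)
      rw [smul_eq_mul]
      exact mul_nonneg_of_nonpos_of_nonpos (inv_nonpos.2 hr0.le) (sub_nonpos.2 h2)
    have h3 : E ≤ 0 := by
      by_contra hc
      have := mul_pos hβ (not_le.1 hc)
      linarith
    refine mul_nonneg_of_nonpos_of_nonpos (Real.sinh_nonpos_iff.2 ?_) h3
    have := mul_nonpos_of_nonneg_of_nonpos hβ.le h0
    linarith

/-- the sign of the derivative: `K' ≤ 0` on `[0, ∞)` (`K_anti`, `K_deriv`), `K' ≥ 0` on `(-∞, 0]`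
(`K_even`), and `sinh (β t / 2)` has the sign of `t` -/
theorem d_sign (B : Fin n → ι → ℝ) (β t : ℝ) (hβ : 0 < β) {a b : Fin n} {q : Fin n → ℝ}
    {σ : Equiv.Perm (Fin n)} (h : Dat B q a b σ) :
    0 ≤ sinh (β * t / 2) * EG B (fun x => et β t a b q x t) :=
  dsg_aux (fun s => EG B (fun x => ht β t a b q x s)) β _ t hβ (K_deriv B β t a b q t)
    (fun _ _ hs hss => K_anti B β t h hs hss) (fun s => K_even B β t h s)
-- END dsg

-- BEGIN ctt
private theorem ctt_q {q : Fin n → ℝ} (σ : Equiv.Perm (Fin n)) (h : ∀ j, q (σ j) = -q j) :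
    ∑ k, q k = 0 := by
  have h1 : ∑ k, q (σ k) = ∑ k, q k := Equiv.sum_comp σ q
  have h2 : ∑ k, q (σ k) = -∑ k, q k := by
    rw [← Finset.sum_neg_distrib]
    exact Finset.sum_congr rfl fun k _ => h k
  linarith

/-- `ff_eq`, `d_sign`; `∑ q = 0` from `Dat.sq` -/
theorem core_t (B : Fin n → ι → ℝ) (β t : ℝ) (hβ : 0 < β) {a b : Fin n} {q : Fin n → ℝ}
    {σ : Equiv.Perm (Fin n)} (h : Dat B q a b σ) :
    0 ≤ EG B (fun x => ff β a b q (fun k => x k + t * q k)) := by
  have hq : ∑ k, q k = 0 := ctt_q σ h.sq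
  have h1 : EG B (fun x => ff β a b q (fun k => x k + t * q k)) =
      2 * (sinh (β * t / 2) * EG B (fun x => et β t a b q x t)) := by
    have h2 : EG B (fun x => ff β a b q (fun k => x k + t * q k)) =
        EG B (fun x => 2 * sinh (β * t / 2) * et β t a b q x t) := by
      unfold EG
      refine integral_congr_ae (Filter.Eventually.of_forall fun z => ?_)
      refine ff_eq β t h.ne q (lin B z) hq h.qa h.qb ?_
      unfold lin
      rw [h.row]
    rw [h2]
    unfold EG
    rw [integral_const_mul, mul_assoc]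
  rw [h1]
  exact mul_nonneg (by norm_num) (d_sign B β t hβ h)
-- END ctt

end SMg
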