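import Pool.Agent.SMt.Gen
import Pool.Agent.Hmk.Pl

/-! MP_72ffec_pr: the soft-max projection inequality when any two coordinates can be exchanged by a
symmetry of the covariance.  Definitions. -/

open MeasureTheory ProbabilityTheory Real
open scoped BigOperators ENNReal

namespace SMg

open SMx SMt

/-- any two indices are exchanged by a permutation that keeps `ρ` -/
def Swp {n : ℕ} (ρ : Fin n → Fin n → ℝ) : Prop :=
  ∀ a b : Fin n, ∃ σ : Equiv.Perm (Fin n), σ a = b ∧ σ b = a ∧ ∀ i j, ρ (σ i) (σ j) = ρ i j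

/-- `q` is antisymmetric under `σ`, which exchanges `a` and `b` and keeps the covariance of `B`, and
the rows `a`, `b` of `B` are equal -/
structure Dat {n : ℕ} {ι : Type} [Fintype ι] (B : Fin n → ι → ℝ) (q : Fin n → ℝ) (a b : Fin n)
    (σ : Equiv.Perm (Fin n)) : Prop where
  ne : a ≠ b
  row : B a = B b
  qa : q a = 1 / 2
  qb : q b = -1 / 2
  sa : σ a = b
  sb : σ b = a
  sq : ∀ j, q (σ j) = -q j
  sc : ∀ i j, cv B (σ i) (σ j) = cv B i j

/-- the sum of the exponentials, `x_a ± t/2` at `a`, `b` (for `x_a = x_b`), `x_k + s q_k` elsewhere -/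
noncomputable def Dt {n : ℕ} (β t : ℝ) (a b : Fin n) (q x : Fin n → ℝ) (s : ℝ) : ℝ :=
  2 * cosh (β * t / 2) * exp (β * x a) +
    ∑ k, (if k = a ∨ k = b then 0 else exp (β * (x k + s * q k)))

/-- its derivative in `s`, divided by `β` -/
noncomputable def St {n : ℕ} (β : ℝ) (a b : Fin n) (q x : Fin n → ℝ) (s : ℝ) : ℝ :=
  ∑ k, (if k = a ∨ k = b then 0 else q k * exp (β * (x k + s * q k)))

/-- `log D - β x̄` -/
noncomputable def Lt {n : ℕ} (β t : ℝ) (a b : Fin n) (q x : Fin n → ℝ) (s : ℝ) : ℝ :=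
  log (Dt β t a b q x s) - β * av x

/-- the log-concave function -/
noncomputable def ht {n : ℕ} (β t : ℝ) (a b : Fin n) (q x : Fin n → ℝ) (s : ℝ) : ℝ :=
  exp (β * x a) * (Lt β t a b q x s + 1) / Dt β t a b q x s

/-- `-1/β` times its derivative in `s` -/
noncomputable def et {n : ℕ} (β t : ℝ) (a b : Fin n) (q x : Fin n → ℝ) (s : ℝ) : ℝ :=
  exp (β * x a) * Lt β t a b q x s * St β a b q x s / Dt β t a b q x s ^ 2

/-- `(L - β x̄) (π_a - π_b) ∑_{k ≠ a, b} w_k π_k` -/
noncomputable def ff {n : ℕ} (β : ℝ) (a b : Fin n) (w y : Fin n → ℝ) : ℝ :=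
  (Lg β y - β * av y) * ((pw β y a - pw β y b) *
    ∑ k, (if k = a ∨ k = b then 0 else w k * pw β y k))

end SMg
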