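import Pool.Agent.SMg.Bas

/-! MP_72ffec_pr, exchangeable pairs: the comparison. -/

open MeasureTheory ProbabilityTheory Real
open scoped BigOperators ENNReal

namespace SMg

open SMx SMt

variable {n : ℕ} {ι : Type} [Fintype ι]

-- BEGIN grf
theorem Gr_ff (β : ℝ) (a b : Fin n) (w : Fin n → ℝ) : Gr (fun y => ff β a b w y) := by
  refine ((Gr.Lg β).sub (Gr.av.const_mul β)).mul
    (((Gr.pw β a).sub (Gr.pw β b)).mul (Gr.sum Finset.univ fun k => ?_))
  by_cases h : k = a ∨ k = b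
  · simp only [h, if_true]
    exact Gr.const 0
  · simp only [h, if_false]
    exact (Gr.pw β k).const_mul (w k)
-- END grf

-- BEGIN fbs
/-- one more independent normal -/
theorem EG_split (B : Fin n → ι → ℝ) (p : Fin n → ℝ) {f : (Fin n → ℝ) → ℝ} (hf : Gr f) :
    EG (fun i => (Sum.elim (B i) (fun _ => p i) : ι ⊕ Unit → ℝ)) f =
      ∫ u, EG B (fun x => f (fun i => x i + u * p i)) ∂(gaussianReal 0 1) := by
  obtain ⟨A, hA⟩ : ∃ A : Fin n → ι ⊕ Unit → ℝ,
      A = fun i => (Sum.elim (B i) (fun _ => p i) : ι ⊕ Unit → ℝ) := ⟨_, rfl⟩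
  obtain ⟨F, hF⟩ : ∃ F : (ι ⊕ Unit → ℝ) → ℝ, F = fun z => f (lin A z) := ⟨_, rfl⟩
  have hint : Integrable F (γ (ι ⊕ Unit)) := by
    rw [hF]
    exact hf.integrable A
  have hmp : MeasurePreserving (MeasurableEquiv.sumPiEquivProdPi (fun _ : ι ⊕ Unit => ℝ))
      (γ (ι ⊕ Unit)) ((γ ι).prod (γ Unit)) :=
    measurePreserving_sumPiEquivProdPi (fun _ : ι ⊕ Unit => gaussianReal 0 1)
  have hint2 : Integrable (fun q : (ι → ℝ) × (Unit → ℝ) =>
      F ((MeasurableEquiv.sumPiEquivProdPi (fun _ : ι ⊕ Unit => ℝ)).symm q)) ((γ ι).prod (γ Unit)) :=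
    (MeasurePreserving.symm _ hmp).integrable_comp_of_integrable hint
  have h1 : ∫ z, F z ∂(γ (ι ⊕ Unit)) = ∫ q, F ((MeasurableEquiv.sumPiEquivProdPi
      (fun _ : ι ⊕ Unit => ℝ)).symm q) ∂((γ ι).prod (γ Unit)) := by
    rw [← hmp.integral_comp' (fun q : (ι → ℝ) × (Unit → ℝ) =>
      F ((MeasurableEquiv.sumPiEquivProdPi (fun _ : ι ⊕ Unit => ℝ)).symm q))]
    refine integral_congr_ae (Filter.Eventually.of_forall fun z => ?_)
    simp only [MeasurableEquiv.symm_apply_apply]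
  have h2 := integral_prod_symm (fun q : (ι → ℝ) × (Unit → ℝ) =>
      F ((MeasurableEquiv.sumPiEquivProdPi (fun _ : ι ⊕ Unit => ℝ)).symm q)) hint2
  have hu : MeasurePreserving (MeasurableEquiv.funUnique Unit ℝ) (γ Unit) (gaussianReal 0 1) :=
    measurePreserving_funUnique (gaussianReal 0 1) Unit
  have h3 := hu.integral_comp' (fun u : ℝ => ∫ x, F ((MeasurableEquiv.sumPiEquivProdPi
      (fun _ : ι ⊕ Unit => ℝ)).symm (x, fun _ : Unit => u)) ∂(γ ι))
  have hL : EG A f = ∫ z, F z ∂(γ (ι ⊕ Unit)) := by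
    rw [hF]
    rfl
  rw [← hA, hL, h1, h2]
  refine Eq.trans ?_ (h3.trans ?_)
  · refine integral_congr_ae (Filter.Eventually.of_forall fun w => ?_)
    rfl
  · refine integral_congr_ae (Filter.Eventually.of_forall fun u => ?_)
    refine integral_congr_ae (Filter.Eventually.of_forall fun x => ?_)
    rw [hF]
    show f _ = f _
    congr 1
    funext i
    rw [hA]
    unfold lin
    rw [Fintype.sum_sum_type]
    simp only [Sum.elim_inl, Sum.elim_inr, Finset.univ_unique, Finset.sum_singleton]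
    rw [mul_comm u (p i)]
    rfl
-- END fbs

-- BEGIN cvr
private theorem cvr_exp (A : Fin n → ι → ℝ) (a b : Fin n) (q : Fin n → ℝ) (i j : Fin n) :
    cv (fun i k => A i k - q i * (A a k - A b k)) i j =
      cv A i j - q j * (cv A a i - cv A b i) - q i * (cv A a j - cv A b j) +
        q i * q j * (cv A a a + cv A b b - 2 * cv A a b) := by
  unfold cv
  have h : ∀ k, (A i k - q i * (A a k - A b k)) * (A j k - q j * (A a k - A b k)) =
      A i k * A j k - q j * (A a k * A i k - A b k * A i k) -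
        q i * (A a k * A j k - A b k * A j k) +
        q i * q j * (A a k * A a k + A b k * A b k - 2 * (A a k * A b k)) := by
    intro k
    ring
  rw [Finset.sum_congr rfl fun k _ => h k, Finset.sum_add_distrib, Finset.sum_sub_distrib,
    Finset.sum_sub_distrib, ← Finset.mul_sum, ← Finset.mul_sum, ← Finset.mul_sum,
    Finset.sum_sub_distrib, Finset.sum_sub_distrib, Finset.sum_sub_distrib,
    Finset.sum_add_distrib, ← Finset.mul_sum]

private theorem cvr_sq (A : Fin n → ι → ℝ) (a b : Fin n) :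
    ∑ k, (A a k - A b k) ^ 2 = cv A a a + cv A b b - 2 * cv A a b := by
  unfold cv
  rw [Finset.mul_sum, ← Finset.sum_add_distrib, ← Finset.sum_sub_distrib]
  exact Finset.sum_congr rfl fun k _ => by ring

/-- removing the direction `X_a - X_b`: `B i = A i - q_i (A a - A b)`, `q_i = (ρ_ai - ρ_bi)/v`,
`v = 2 - 2 ρ_ab ≠ 0`: `cv B i j = ρ_ij - v q_i q_j` -/
theorem cv_rem (A : Fin n → ι → ℝ) (hA : ∀ i, cv A i i = 1) (a b : Fin n) (v : ℝ)
    (hv : v = 2 - 2 * cv A a b) (hv0 : v ≠ 0) (q : Fin n → ℝ)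
    (hq : ∀ i, q i = (cv A a i - cv A b i) / v) (i j : Fin n) :
    cv (fun i k => A i k - q i * (A a k - A b k)) i j = cv A i j - v * (q i * q j) := by
  have h1 : ∀ i, cv A a i - cv A b i = v * q i := fun i => by
    rw [hq i, mul_div_cancel₀ _ hv0]
  rw [cvr_exp, h1, h1, hA, hA, hv]
  ring

/-- `v = |A a - A b|² ≥ 0` -/
theorem v_nonneg (A : Fin n → ι → ℝ) (hA : ∀ i, cv A i i = 1) (a b : Fin n) :
    0 ≤ 2 - 2 * cv A a b := by
  have h := cvr_sq A a b
  rw [hA, hA] at h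
  have h1 : 0 ≤ ∑ k, (A a k - A b k) ^ 2 := Finset.sum_nonneg fun k _ => sq_nonneg _
  linarith

/-- if `v = 0` then the rows are equal -/
theorem v_zero (A : Fin n → ι → ℝ) (hA : ∀ i, cv A i i = 1) (a b : Fin n)
    (h : 2 - 2 * cv A a b = 0) : A a = A b := by
  have h1 := cvr_sq A a b
  rw [hA, hA] at h1
  have h2 : ∑ k, (A a k - A b k) ^ 2 = 0 := by linarith
  rw [Finset.sum_eq_zero_iff_of_nonneg fun k _ => sq_nonneg _] at h2
  funext k
  have h3 := h2 k (Finset.mem_univ k)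
  exact sub_eq_zero.1 (pow_eq_zero_iff two_ne_zero |>.1 h3)
-- END cvr

-- BEGIN dat
private theorem dat_comm (A : Fin n → ι → ℝ) (i j : Fin n) : cv A i j = cv A j i := by
  unfold cv
  exact Finset.sum_congr rfl fun k _ => mul_comm _ _

/-- the data for `core_t` -/
theorem dat_rem (A : Fin n → ι → ℝ) (hA : ∀ i, cv A i i = 1) {a b : Fin n} (hab : a ≠ b)
    (σ : Equiv.Perm (Fin n)) (sa : σ a = b) (sb : σ b = a)
    (sc : ∀ i j, cv A (σ i) (σ j) = cv A i j) (v : ℝ)
    (hv : v = 2 - 2 * cv A a b) (hv0 : v ≠ 0) (q : Fin n → ℝ)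
    (hq : ∀ i, q i = (cv A a i - cv A b i) / v) :
    Dat (fun i k => A i k - q i * (A a k - A b k)) q a b σ := by
  have qa : q a = 1 / 2 := by
    rw [hq, hA, dat_comm A b a, div_eq_iff hv0, hv]
    ring
  have qb : q b = -1 / 2 := by
    rw [hq, hA, div_eq_iff hv0, hv]
    ring
  have sq : ∀ j, q (σ j) = -q j := by
    intro j
    have h1 : cv A a (σ j) = cv A b j := by
      rw [← sc b j, sb]
    have h2 : cv A b (σ j) = cv A a j := by
      rw [← sc a j, sa]
    rw [hq, hq, h1, h2]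
    ring
  refine ⟨hab, ?_, qa, qb, sa, sb, sq, ?_⟩
  · funext k
    simp only [qa, qb]
    ring
  · intro i j
    rw [cv_rem A hA a b v hv hv0 q hq, cv_rem A hA a b v hv hv0 q hq, sc, sq, sq]
    ring
-- END dat

-- BEGIN ffp
/-- `E ff ≥ 0` for `w = q`: `SM3.EG_congr` with the matrix `Sum.elim (B i) (√v q_i)` (`cv_rem`), then
`EG_split` and `core_t` at `t = u √v` -/
theorem ff_pos (A : Fin n → ι → ℝ) (hA : ∀ i, cv A i i = 1) {a b : Fin n} (hab : a ≠ b)
    (σ : Equiv.Perm (Fin n)) (sa : σ a = b) (sb : σ b = a)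
    (sc : ∀ i j, cv A (σ i) (σ j) = cv A i j) (v : ℝ)
    (hv : v = 2 - 2 * cv A a b) (hv0 : v ≠ 0) (q : Fin n → ℝ)
    (hq : ∀ i, q i = (cv A a i - cv A b i) / v) (β : ℝ) (hβ : 0 < β) :
    0 ≤ EG A (fun y => ff β a b q y) := by
  have hvn : 0 ≤ v := by rw [hv]; exact v_nonneg A hA a b
  have hs : √v * √v = v := Real.mul_self_sqrt hvn
  have hcv : ∀ i j, cv A i j = cv (fun i => (Sum.elim (fun k => A i k - q i * (A a k - A b k))
      (fun _ => √v * q i) : ι ⊕ Unit → ℝ)) i j := by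
    intro i j
    have h1 := cv_rem A hA a b v hv hv0 q hq i j
    unfold cv at h1 ⊢
    rw [Fintype.sum_sum_type]
    simp only [Sum.elim_inl, Sum.elim_inr, Finset.univ_unique, Finset.sum_singleton] at h1 ⊢
    rw [h1]
    linear_combination (-(q i * q j)) * hs
  rw [SM3.EG_congr A _ hcv (Gr_ff β a b q), EG_split _ _ (Gr_ff β a b q)]
  refine integral_nonneg fun u => ?_
  have h2 := core_t (fun i k => A i k - q i * (A a k - A b k)) β (u * √v) hβ
    (dat_rem A hA hab σ sa sb sc v hv hv0 q hq)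
  simp only [mul_assoc] at h2
  exact h2
-- END ffp

-- BEGIN rws
/-- equal row sums -/
theorem Swp_row (A : Fin n → ι → ℝ) (h : Swp (cv A)) (i j : Fin n) :
    ∑ k, cv A i k = ∑ k, cv A j k := by
  obtain ⟨σ, si, -, sc⟩ := h i j
  rw [← Equiv.sum_comp σ (fun k => cv A j k)]
  refine Finset.sum_congr rfl fun k _ => ?_
  rw [← si]
  exact (sc i k).symm

/-- the common row sum is nonnegative (`SMt.gramn` at `1`) -/
theorem row_nonneg (A : Fin n → ι → ℝ) (h : Swp (cv A)) (i : Fin n) : 0 ≤ ∑ k, cv A i k := by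
  have hg : 0 ≤ ∑ i, ∑ k, cv A i k := by
    have h0 : ∑ i, ∑ k, cv A i k = ∑ t, (∑ i, A i t) ^ 2 := by
      unfold cv
      have h1 : ∀ i : Fin n, ∑ k, ∑ t, A i t * A k t = ∑ t, A i t * ∑ k, A k t := by
        intro i
        rw [Finset.sum_comm]
        refine Finset.sum_congr rfl fun t _ => ?_
        rw [Finset.mul_sum]
      rw [Finset.sum_congr rfl fun i _ => h1 i, Finset.sum_comm]
      refine Finset.sum_congr rfl fun t _ => ?_
      rw [← Finset.sum_mul, sq]
    rw [h0]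
    exact Finset.sum_nonneg fun t _ => sq_nonneg _
  have he : ∑ j, ∑ k, cv A j k = (n : ℝ) * ∑ k, cv A i k := by
    rw [Finset.sum_congr rfl fun j _ => Swp_row A h j i]
    simp
  have hn : 0 < (n : ℝ) := by
    have : 0 < n := lt_of_le_of_lt (Nat.zero_le _) i.2
    exact_mod_cast this
  rw [he] at hg
  exact nonneg_of_mul_nonneg_right hg hn
-- END rws

-- BEGIN ffa
private theorem ffa_g (β : ℝ) (i j : Fin n) : Gr (fun x : Fin n → ℝ =>
    (Lg β x - β * av x) * (pw β x i * pw β x j)) :=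
  ((Gr.Lg β).sub (Gr.av.const_mul β)).mul ((Gr.pw β i).mul (Gr.pw β j))

/-- `E ff` in terms of `AA` (`SMt.AA_eq` with equal row sums `r`) -/
theorem EG_ff (A : Fin n → ι → ℝ) (r : ℝ) (hr : ∀ l, ∑ j, cv A l j = r) (β : ℝ) (a b : Fin n)
    (w : Fin n → ℝ) :
    EG A (fun y => ff β a b w y) =
      ∑ k, (if k = a ∨ k = b then 0 else w k * (AA β A a k - AA β A b k)) := by
  have e : (fun y : Fin n → ℝ => ff β a b w y) = fun y => ∑ k, (if k = a ∨ k = b then 0 else
      w k * ((Lg β y - β * av y) * (pw β y a * pw β y k) -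
        (Lg β y - β * av y) * (pw β y b * pw β y k))) := by
    funext y
    unfold ff
    rw [Finset.mul_sum, Finset.mul_sum]
    refine Finset.sum_congr rfl fun k _ => ?_
    by_cases h : k = a ∨ k = b
    · rw [if_pos h, if_pos h]
      ring
    · rw [if_neg h, if_neg h]
      ring
  have g : ∀ k : Fin n, Gr (fun y : Fin n → ℝ => if k = a ∨ k = b then 0 else
      w k * ((Lg β y - β * av y) * (pw β y a * pw β y k) -
        (Lg β y - β * av y) * (pw β y b * pw β y k))) := by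
    intro k
    by_cases h : k = a ∨ k = b
    · simp only [if_pos h]
      exact Gr.const 0
    · simp only [if_neg h]
      exact ((ffa_g β a k).sub (ffa_g β b k)).const_mul (w k)
  rw [e, EG_sum Finset.univ g A]
  refine Finset.sum_congr rfl fun k _ => ?_
  by_cases h : k = a ∨ k = b
  · simp only [if_pos h]
    exact EG_const 0 A
  · simp only [if_neg h]
    rw [EG_const_mul, EG_sub (ffa_g β a k) (ffa_g β b k), AA_eq A r hr β a k, AA_eq A r hr β b k]
-- END ffa

-- BEGIN tab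
/-- the transposition inequality: `v = 0` trivial (`v_zero`), else `v` times `ff_pos` -/
theorem T_ab (A : Fin n → ι → ℝ) (hA : ∀ i, cv A i i = 1) (h : Swp (cv A)) {a b : Fin n}
    (hab : a ≠ b) (β : ℝ) (hβ : 0 < β) :
    0 ≤ ∑ k, (if k = a ∨ k = b then 0 else
      (cv A a k - cv A b k) * (AA β A a k - AA β A b k)) := by
  by_cases hv0 : 2 - 2 * cv A a b = 0
  · have hr := v_zero A hA a b hv0
    have h0 : ∀ k, cv A a k - cv A b k = 0 := by
      intro k
      unfold cv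
      rw [hr, sub_self]
    refine le_of_eq (Finset.sum_eq_zero fun k _ => ?_).symm
    rw [h0, zero_mul, ite_self]
  · obtain ⟨σ, sa, sb, sc⟩ := h a b
    have h1 := ff_pos A hA hab σ sa sb sc (2 - 2 * cv A a b) rfl hv0
      (fun i => (cv A a i - cv A b i) / (2 - 2 * cv A a b)) (fun _ => rfl) β hβ
    rw [EG_ff A (∑ k, cv A a k) (fun l => Swp_row A h l a)] at h1
    have h2 := mul_nonneg (v_nonneg A hA a b) h1
    rw [Finset.mul_sum] at h2
    refine h2.trans (le_of_eq (Finset.sum_congr rfl fun k _ => ?_))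
    split_ifs
    · rw [mul_zero]
    · rw [← mul_assoc, mul_div_cancel₀ _ hv0]
-- END tab

-- BEGIN alg
private theorem alg_T (ρ M : Fin n → Fin n → ℝ)
    (hT : ∀ a b, a ≠ b → 0 ≤ ∑ k, (if k = a ∨ k = b then 0 else
      (ρ a k - ρ b k) * (M a k - M b k))) (a b : Fin n) :
    0 ≤ (∑ k, (ρ a k - ρ b k) * (M a k - M b k)) - (ρ a a - ρ b a) * (M a a - M b a) -
      (ρ a b - ρ b b) * (M a b - M b b) := by
  by_cases hab : a = b
  · subst hab; simp
  · refine (hT a b hab).trans_eq ?_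
    have : ∀ k, (if k = a ∨ k = b then 0 else (ρ a k - ρ b k) * (M a k - M b k)) =
        (ρ a k - ρ b k) * (M a k - M b k) -
          (if k = a then (ρ a k - ρ b k) * (M a k - M b k) else 0) -
          (if k = b then (ρ a k - ρ b k) * (M a k - M b k) else 0) := by
      intro k
      by_cases h1 : k = a
      · subst h1; simp [hab]
      · by_cases h2 : k = b
        · subst h2; simp [h1]
        · simp [h1, h2]
    simp only [this, Finset.sum_sub_distrib, Finset.sum_ite_eq', Finset.mem_univ, if_true]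

/-- algebra: `∑_{a ≠ b} T_ab = (2n-2) ∑_{i≠j} ρ_ij B_ij - 2 (r-1) ∑_{i≠j} B_ij`, `r ≥ 0`, `B ≥ 0` -/
theorem T_alg (hn : 2 ≤ n) (ρ M : Fin n → Fin n → ℝ) (hs : ∀ i j, ρ i j = ρ j i)
    (hM : ∀ i j, M i j = M j i) (h1 : ∀ i, ρ i i = 1) (r : ℝ) (hr : ∀ i, ∑ k, ρ i k = r)
    (hr0 : 0 ≤ r) (hM0 : ∀ i j, 0 ≤ M i j)
    (hT : ∀ a b, a ≠ b → 0 ≤ ∑ k, (if k = a ∨ k = b then 0 else
      (ρ a k - ρ b k) * (M a k - M b k))) :
    0 ≤ ∑ i, ∑ j, (if i = j then 0 else (ρ i j + 1 / ((n : ℝ) - 1)) * M i j) := by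
  have hsum : 0 ≤ ∑ a, ∑ b, ((∑ k, (ρ a k - ρ b k) * (M a k - M b k)) -
      (ρ a a - ρ b a) * (M a a - M b a) - (ρ a b - ρ b b) * (M a b - M b b)) :=
    Finset.sum_nonneg fun a _ => Finset.sum_nonneg fun b _ => alg_T ρ M hT a b
  have hr' : ∀ k, ∑ a, ρ a k = r := fun k => by
    rw [← hr k]; exact Finset.sum_congr rfl fun a _ => hs a k
  set P : ℝ := ∑ i, ∑ j, ρ i j * M i j with hP
  set Q : ℝ := ∑ i, ∑ j, M i j with hQ
  set D : ℝ := ∑ i, M i i with hD
  have e1 : ∑ a : Fin n, ∑ _b : Fin n, ∑ k, ρ a k * M a k = n * P := by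
    simp [hP, Finset.mul_sum]
  have e2 : ∑ _a : Fin n, ∑ b : Fin n, ∑ k, ρ b k * M b k = n * P := by
    simp [hP]
  have e3 : ∑ a : Fin n, ∑ b : Fin n, ∑ k, ρ a k * M b k = r * Q := by
    rw [Finset.sum_comm, hQ, Finset.mul_sum]
    refine Finset.sum_congr rfl fun b _ => ?_
    rw [Finset.sum_comm, Finset.mul_sum]
    refine Finset.sum_congr rfl fun k _ => ?_
    rw [← Finset.sum_mul, hr']
  have e4 : ∑ a : Fin n, ∑ b : Fin n, ∑ k, ρ b k * M a k = r * Q := by
    rw [Finset.sum_comm]; exact e3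
  have f1 : ∑ a : Fin n, ∑ _b : Fin n, M a a = n * D := by
    simp [hD, Finset.mul_sum]
  have f2 : ∑ a : Fin n, ∑ b : Fin n, M b a = Q := by
    rw [Finset.sum_comm]
  have f3 : ∑ a : Fin n, ∑ b : Fin n, ρ b a * M a a = r * D := by
    rw [hD, Finset.mul_sum]
    refine Finset.sum_congr rfl fun a _ => ?_
    rw [← Finset.sum_mul, hr']
  have f4 : ∑ a : Fin n, ∑ b : Fin n, ρ b a * M b a = P := by
    rw [Finset.sum_comm]
  have g1 : ∑ _a : Fin n, ∑ b : Fin n, M b b = n * D := by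
    simp [hD]
  have g3 : ∑ a : Fin n, ∑ b : Fin n, ρ a b * M b b = r * D := by
    rw [Finset.sum_comm]
    rw [hD, Finset.mul_sum]
    refine Finset.sum_congr rfl fun a _ => ?_
    rw [← Finset.sum_mul, hr']
  have key : ∑ a, ∑ b, ((∑ k, (ρ a k - ρ b k) * (M a k - M b k)) -
      (ρ a a - ρ b a) * (M a a - M b a) - (ρ a b - ρ b b) * (M a b - M b b)) =
      2 * (n * P) - 2 * (r * Q) - (n * D - Q - r * D + P) - (P - r * D - Q + n * D) := by
    have hh : ∀ a b, ((∑ k, (ρ a k - ρ b k) * (M a k - M b k)) -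
        (ρ a a - ρ b a) * (M a a - M b a) - (ρ a b - ρ b b) * (M a b - M b b)) =
        (((∑ k, ρ a k * M a k) + ∑ k, ρ b k * M b k) - (∑ k, ρ a k * M b k) -
          ∑ k, ρ b k * M a k) - (M a a - M b a - ρ b a * M a a + ρ b a * M b a) -
          (ρ a b * M a b - ρ a b * M b b - M a b + M b b) := by
      intro a b
      rw [h1 a, h1 b, ← Finset.sum_add_distrib, ← Finset.sum_sub_distrib,
        ← Finset.sum_sub_distrib]
      rw [Finset.sum_congr rfl (fun k _ => show (ρ a k - ρ b k) * (M a k - M b k) =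
        ρ a k * M a k + ρ b k * M b k - ρ a k * M b k - ρ b k * M a k by ring)]
      ring
    simp only [hh, Finset.sum_sub_distrib, Finset.sum_add_distrib, e1, e2, e3, e4, f1, f2, f3, f4,
      g1, g3]
    rw [← hP, ← hQ]
    ring
  rw [key] at hsum
  have hgoal : ∑ i, ∑ j, (if i = j then 0 else (ρ i j + 1 / ((n : ℝ) - 1)) * M i j) =
      (P - D) + 1 / ((n : ℝ) - 1) * (Q - D) := by
    have hh : ∀ i, ∑ j, (if i = j then 0 else (ρ i j + 1 / ((n : ℝ) - 1)) * M i j) =
        ((∑ j, ρ i j * M i j) - M i i) + 1 / ((n : ℝ) - 1) * ((∑ j, M i j) - M i i) := by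
      intro i
      have h2 : ∀ j, (if i = j then 0 else (ρ i j + 1 / ((n : ℝ) - 1)) * M i j) =
          ρ i j * M i j + 1 / ((n : ℝ) - 1) * M i j -
            (if i = j then ρ i j * M i j + 1 / ((n : ℝ) - 1) * M i j else 0) := by
        intro j; split_ifs <;> ring
      simp only [h2, Finset.sum_sub_distrib, Finset.sum_add_distrib, Finset.sum_ite_eq,
        Finset.mem_univ, if_true, ← Finset.mul_sum, h1]
      ring
    simp only [hh, Finset.sum_add_distrib, ← Finset.mul_sum, Finset.sum_sub_distrib]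
    rw [← hP, ← hQ, ← hD]
  have hQD : 0 ≤ Q - D := by
    rw [hQ, hD, ← Finset.sum_sub_distrib]
    refine Finset.sum_nonneg fun i _ => ?_
    have := Finset.single_le_sum (f := fun j => M i j) (fun j _ => hM0 i j) (Finset.mem_univ i)
    simpa using this
  have hn1 : (0 : ℝ) < (n : ℝ) - 1 := by
    have : (2 : ℝ) ≤ n := by exact_mod_cast hn
    linarith
  rw [hgoal]
  have h3 : 0 ≤ ((n : ℝ) - 1) * (P - D) + (Q - D) := by
    nlinarith [mul_nonneg hr0 hQD]
  have h4 : (P - D) + 1 / ((n : ℝ) - 1) * (Q - D) =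
      (((n : ℝ) - 1) * (P - D) + (Q - D)) / ((n : ℝ) - 1) := by
    field_simp
  rw [h4]
  exact div_nonneg h3 hn1.le
-- END alg

-- BEGIN tps
/-- `T_alg` for `cv A`, `AA β A` -/
theorem T_pos (hn : 2 ≤ n) (A : Fin n → ι → ℝ) (hA : ∀ i, cv A i i = 1) (h : Swp (cv A))
    (β : ℝ) (hβ : 0 < β) :
    0 ≤ ∑ i, ∑ j, (if i = j then 0 else (cv A i j + 1 / ((n : ℝ) - 1)) * AA β A i j) := by
  have i0 : Fin n := ⟨0, by omega⟩
  have hr : ∀ i, ∑ k, cv A i k = ∑ k, cv A i0 k := fun i => Swp_row A h i i0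
  refine T_alg hn (cv A) (AA β A) (fun i j => ?_) (fun i j => ?_) hA
    (∑ k, cv A i0 k) hr (row_nonneg A h i0) (fun i j => ?_)
    fun a b hab => T_ab A hA h hab β hβ
  · unfold cv
    exact Finset.sum_congr rfl fun k _ => mul_comm _ _
  · unfold AA
    simp only [mul_comm (pw β _ i)]
  · exact AA_nonneg A _ hr β i j
-- END tps

-- BEGIN pth
/-- the path stays in the class (`SMx.pathcv`, `SMx.spx_cv`) -/
theorem Swp_path (hn : 2 ≤ n) (A : Fin n → Fin n → ℝ) (h : Swp (cv A)) (θ : ℝ) :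
    Swp (cv (path A (spx n) θ)) := by
  intro a b
  obtain ⟨σ, h1, h2, h3⟩ := h a b
  refine ⟨σ, h1, h2, fun i j => ?_⟩
  rw [pathcv, pathcv, h3, spx_cv hn, spx_cv hn]
  simp only [σ.injective.eq_iff]

/-- `ρ_ij(θ) + 1/(n-1) = cos² θ (ρ_ij + 1/(n-1)) = -cos² θ dl_ij` for `i ≠ j` -/
theorem path_dl (hn : 2 ≤ n) (A : Fin n → Fin n → ℝ) (hA : ∀ i, cv A i i = 1) (θ : ℝ)
    (i j : Fin n) :
    (if i = j then 0 else cv (path A (spx n) θ) i j + 1 / ((n : ℝ) - 1)) =
      -(cos θ ^ 2 * dl A (spx n) i j) := by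
  by_cases hij : i = j
  · subst hij
    rw [if_pos rfl, dl, hA, spx_cv hn, if_pos rfl]
    ring
  · rw [if_neg hij, pathcv, dl, spx_cv hn, if_neg hij]
    have h := sin_sq_add_cos_sq θ
    have h' : sin θ ^ 2 = 1 - cos θ ^ 2 := by linarith
    rw [h']
    ring
-- END pth

-- BEGIN hng
/-- the derivative has the right sign: `θ < π/2` by `T_pos`, `path_dl`, `SMt.EG_qAn`;
`θ = π/2` by `SMx.path_pi` and `SMx.hend` -/
theorem hneg_g (hn : 2 ≤ n) (A : Fin n → Fin n → ℝ) (hA : ∀ i, cv A i i = 1) (h : Swp (cv A))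
    (β : ℝ) (hβ : 0 < β) (θ : ℝ) (h0 : 0 ≤ θ) (h1 : θ ≤ π / 2) :
    EG (path A (spx n) θ) (fun x => Lg β x * qA (dl A (spx n)) β x) ≤ 0 := by
  rcases eq_or_lt_of_le h1 with he | hlt
  · rw [he, path_pi A (spx n) ((Gr.Lg β).mul (Gr.qA _ β))]
    refine (hend hn A hA β).trans ?_
    have h2 := del_nonneg A
    have h3 : (0 : ℝ) ≤ log n := log_natCast_nonneg n
    have h4 : 0 ≤ del A * log n * exp (-β ^ 2) := mul_nonneg (mul_nonneg h2 h3) (exp_pos _).le
    linarith
  · have hc : 0 < cos θ := cos_pos_of_mem_Ioo ⟨by linarith [pi_pos], hlt⟩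
    have hB : ∀ i, cv (path A (spx n) θ) i i = 1 := by
      intro i
      rw [pathcv, hA i, spx_cv hn i i, if_pos rfl, mul_one, mul_one]
      exact cos_sq_add_sin_sq θ
    have hT := T_pos hn (path A (spx n) θ) hB (Swp_path hn A h θ) β hβ
    have e : (∑ i, ∑ j, (if i = j then 0 else
        (cv (path A (spx n) θ) i j + 1 / ((n : ℝ) - 1)) * AA β (path A (spx n) θ) i j)) =
        -(cos θ ^ 2 * EG (path A (spx n) θ) (fun x => Lg β x * qA (dl A (spx n)) β x)) := by
      rw [EG_qAn, Finset.mul_sum, ← Finset.sum_neg_distrib]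
      refine Finset.sum_congr rfl fun i _ => ?_
      rw [Finset.mul_sum, ← Finset.sum_neg_distrib]
      refine Finset.sum_congr rfl fun j _ => ?_
      have e1 := path_dl hn A hA θ i j
      have e2 : (if i = j then 0 else
          (cv (path A (spx n) θ) i j + 1 / ((n : ℝ) - 1)) * AA β (path A (spx n) θ) i j) =
          (if i = j then 0 else cv (path A (spx n) θ) i j + 1 / ((n : ℝ) - 1)) *
            AA β (path A (spx n) θ) i j := by
        split_ifs
        · rw [zero_mul]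
        · rfl
      rw [e2, e1]
      ring
    rw [e] at hT
    by_contra hneg
    have h5 := mul_pos (pow_pos hc 2) (not_le.1 hneg)
    linarith
-- END hng

-- BEGIN cor
/-- the comparison with the simplex (`SMt.FF_le`) -/
theorem core_g (hn : 2 ≤ n) (A : Fin n → Fin n → ℝ) (hA : ∀ i, cv A i i = 1) (h : Swp (cv A))
    (β : ℝ) (hβ : 0 < β) : FF β A ≤ FF β (spx n) := by
  exact FF_le (by omega) A (spx n) hA (fun i => by rw [spx_cv hn, if_pos rfl]) β
    (fun θ h0 h1 => hneg_g hn A hA h β hβ θ h0 h1)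
-- END cor

end SMg
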